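import Pool.Agent.Lib.MP_4b2155_pr.Moment

set_option autoImplicit false

namespace Pool.Agent.Lib.MP_4b2155_pr

open Finset Pool.Agent.Lib.MP_ad359d_co FP

noncomputable section

theorem E_eq_sum {α : Type*} [Fintype α] (ν : FP α) (g : α → ℝ) :
    ν.E g = ∑ a, ν.P (fun b => b = a) * g a := by
  simp only [P, ← E_mul_right, ← E_sum, sum_ind_eq_mul']

theorem fubini {α β : Type*} [Fintype α] (μ : FP β) (ν : FP α) (f : β → α → ℝ) :
    μ.E (fun b => ν.E fun a => f b a) = ν.E fun a => μ.E fun b => f b a := by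
  simp only [E_eq_sum ν, E_sum, E_mul_left]

theorem pz {β : Type*} (μ : FP β) (Z : β → ℝ) (B : β → Prop) {M : ℝ} (hM : 0 < M)
    (h1 : 1 / 4 ≤ μ.E fun b => Z b * ind (B b)) (h2 : μ.E (fun b => Z b ^ 2) ≤ M) :
    1 / (16 * M) ≤ μ.P B := by
  have h3 : μ.E (fun b => Z b * ind (B b))
      ≤ μ.E fun b => 1 / (8 * M) * Z b ^ 2 + 2 * M * ind (B b) := E_mono _ fun b => by
    by_cases h : B b
    · rw [ind_true h]
      have : 0 ≤ 1 / (8 * M) * (Z b - 4 * M) ^ 2 := by positivity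
      have e : 1 / (8 * M) * (Z b - 4 * M) ^ 2 = 1 / (8 * M) * Z b ^ 2 - Z b + 2 * M := by
        field_simp; ring
      linarith
    · rw [ind_false h]; simp only [mul_zero, add_zero]; positivity
  rw [E_add, E_mul_left, E_mul_left] at h3
  have h4 : 1 / (8 * M) * μ.E (fun b => Z b ^ 2) ≤ 1 / 8 :=
    calc _ ≤ 1 / (8 * M) * M := by gcongr
      _ = _ := by field_simp
  rw [div_le_iff₀ (by positivity)]
  unfold P
  linarith

variable {n q : ℕ}

structure Par (n q : ℕ) (p κ t c : ℝ) : Prop where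
  hn : 0 < n
  hq : 2 ≤ q
  p0 : 0 < p
  p1 : p ≤ 1 / 2
  ht : 1 ≤ t
  hc : 0 ≤ c
  h1 : κ * (2 * (t + 1)) ≤ 1
  h2 : κ * (101 / 100 * q) ≤ Real.log t - 1
  h3 : n * (p / (1 - p) / (2 * (q - 1) ^ 2)) + c ≤ κ
  h4 : q * (2 * Real.exp (-(n / q / 100) ^ 2 / (2 * n))) ≤ 1 / 2

variable {p κ t c : ℝ}

theorem Par.lt (h : Par n q p κ t c) : p < 1 := by linarith [h.p1]

def Par.G (h : Par n q p κ t c) : FP (Om n) := gnp n p h.p0.le h.lt.le

def Par.pl (h : Par n q p κ t c) (σ : Fin n → Fin q) : FP (Om n) :=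
  MP_4b2155_pr.pl h.p0 h.lt (rr p σ) (rr_mem h.p0 h.p1 h.hq σ)

theorem Par.L0 (h : Par n q p κ t c) (σ : Fin n → Fin q) (ω : Om n) : 0 ≤ LL p (rr p σ) ω :=
  LL_nonneg h.p0 h.lt (rr_mem h.p0 h.p1 h.hq σ) ω

theorem Par.far [NeZero q] (h : Par n q p κ t c) {s x : ℝ} (hs : 0 ≤ s) (hs' : s ≤ c) :
    h.G.E (fun ω => (nu n q).E fun σ => (nu n q).E fun τ => ind (Bal σ) * LL p (rr p σ) ω
      * LL p (rr p τ) ω * Real.exp (s / n * (KK σ τ - x))) ≤ (n + 1) ^ (q * q) * Real.exp (-(s / n * x)) := by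
  have hn : (0 : ℝ) < n := by exact_mod_cast h.hn
  have h0 : 0 ≤ p / (1 - p) / (2 * (q - 1) ^ 2) := by
    have := h.p0; have : 0 < 1 - p := by linarith [h.lt]
    positivity
  set κ' := n * (p / (1 - p) / (2 * (q - 1) ^ 2)) + s
  have a0 : 0 ≤ κ' := by positivity
  have a1 : κ' ≤ κ := le_trans (by simp only [κ']; linarith) h.h3
  have ht := h.ht
  have b := exp_moment (q := q) h.hn h.ht a0 (le_trans (by gcongr) h.h1) (le_trans (by gcongr) h.h2)
  refine le_trans ?_ (mul_le_mul_of_nonneg_right b (Real.exp_pos _).le)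
  rw [fubini, ← E_mul_right]
  refine E_mono _ fun σ => ?_
  rw [fubini, ← E_mul_right]
  refine E_mono _ fun τ => ?_
  simp only [mul_assoc, E_mul_left]
  refine mul_le_mul_of_nonneg_left ?_ (ind_nonneg _)
  simp only [← mul_assoc, E_mul_right]
  refine (mul_le_mul_of_nonneg_right (LL_mul h.p0 h.p1 h.hq σ τ) (Real.exp_pos _).le).trans
    (le_of_eq ?_)
  simp only [← Real.exp_add]
  congr 1
  simp only [κ']; field_simp; ring

def ZZ (p : ℝ) [NeZero q] (A : (Fin n → Fin q) → Om n → Prop) (ω : Om n) : ℝ :=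
  (nu n q).E fun σ => ind (Bal σ) * (LL p (rr p σ) ω * ind (A σ ω))

theorem Par.ZZ_sq [NeZero q] (h : Par n q p κ t c) (A : (Fin n → Fin q) → Om n → Prop) :
    h.G.E (fun ω => ZZ p A ω ^ 2) ≤ (n + 1) ^ (q * q) := by
  have := h.far (s := 0) (x := 0) le_rfl h.hc
  simp only [zero_div, zero_mul, Real.exp_zero, mul_one, neg_zero] at this
  refine le_trans (E_mono _ fun ω => ?_) this
  rw [sq, ZZ, ← E_mul_right]
  refine E_mono _ fun σ => ?_
  rw [← E_mul_left]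
  refine E_mono _ fun τ => ?_
  have a1 := h.L0 σ ω
  have a2 := h.L0 τ ω
  have a3 := ind_nonneg (Bal σ)
  refine mul_le_mul (mul_le_mul_of_nonneg_left (mul_le_of_le_one_right a1 (ind_le_one _)) a3) ?_
    (mul_nonneg (ind_nonneg _) (mul_nonneg a2 (ind_nonneg _))) (by positivity)
  exact (mul_le_of_le_one_left (mul_nonneg a2 (ind_nonneg _)) (ind_le_one _)).trans
    (mul_le_of_le_one_right a2 (ind_le_one _))

theorem Par.ZZ_ge [NeZero q] (h : Par n q p κ t c) (A : (Fin n → Fin q) → Om n → Prop) {a : ℝ}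
    (ha : 0 ≤ a) (hA : ∀ σ, Bal σ → a ≤ (h.pl σ).P (A σ)) : a / 2 ≤ h.G.E (ZZ p A) := by
  have b := (bal_prob (q := q) h.hn).trans h.h4
  rw [P_not] at b
  unfold ZZ
  rw [fubini]
  calc a / 2 ≤ (nu n q).E fun σ => a * ind (Bal σ) := by
        rw [E_mul_left]; unfold P at b; nlinarith
    _ ≤ _ := E_mono _ fun σ => by
        rw [E_mul_left, mul_comm]
        by_cases hσ : Bal σ
        · exact mul_le_mul_of_nonneg_left (hA σ hσ) (ind_nonneg _)
        · simp [ind_false hσ]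

theorem Par.exists_prob [NeZero q] (h : Par n q p κ t c) (A : (Fin n → Fin q) → Om n → Prop)
    (hA : ∀ σ, Bal σ → 1 / 2 ≤ (h.pl σ).P (A σ)) :
    1 / (16 * (n + 1) ^ (q * q)) ≤ h.G.P fun ω => ∃ σ, Bal σ ∧ A σ ω ∧
      ∀ u v, (gr ω).Adj u v → σ u ≠ σ v := by
  refine pz _ (ZZ p A) _ (by positivity) ?_ (h.ZZ_sq A)
  refine le_trans (le_trans (by norm_num) (h.ZZ_ge A (by norm_num) hA)) (E_mono _ fun ω => ?_)
  by_cases hb : ∃ σ, Bal σ ∧ A σ ω ∧ ∀ u v, (gr ω).Adj u v → σ u ≠ σ v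
  · rw [ind_true hb, mul_one]
  · rw [ind_false hb, mul_zero]
    refine E_le _ fun σ => le_of_eq ?_
    by_contra hne
    simp only [mul_eq_zero, not_or] at hne
    exact hb ⟨σ, by_contra fun h' => hne.1 (ind_false h'), by_contra fun h' => hne.2.2 (ind_false h'),
      fun u v => proper_of_LL σ ω hne.2.1⟩

def Free (q : ℕ) (G : SimpleGraph (Fin n)) (x : ℝ) : Prop :=
  ∀ B : Finset (Fin n), (∀ σ τ : Fin n → Fin q, (∀ u v, G.Adj u v → σ u ≠ σ v) →
    (∀ u v, G.Adj u v → τ u ≠ τ v) → ∀ u ∈ B, ∀ v ∈ B, (σ u = σ v ↔ τ u = τ v)) → (#B : ℝ) ≤ x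

theorem Par.free_det [NeZero q] (h : Par n q p κ t c) (ω : Om n) {ξ : ℝ} (hξ : 0 ≤ ξ)
    (h1 : 1 / 4 ≤ ZZ (q := q) p (fun _ _ => True) ω)
    (h2 : ((nu n q).E fun σ => (nu n q).E fun τ => ind (Bal σ) * LL p (rr p σ) ω
      * LL p (rr p τ) ω * Real.exp (c / n * (KK σ τ - ξ ^ 2 * n ^ 2))) < ξ ^ 2 / (16 * q ^ 2)) :
    Free q (gr ω) (2 * ξ * n) := by
  intro B hB
  have hq : (2 : ℝ) ≤ q := by exact_mod_cast h.hq
  have hn : (0 : ℝ) < n := by exact_mod_cast h.hn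
  set w : (Fin n → Fin q) → ℝ := fun σ => ind (Bal σ) * LL p (rr p σ) ω with hw
  have w0 : ∀ σ, 0 ≤ w σ := fun σ => mul_nonneg (ind_nonneg _) (h.L0 σ ω)
  have hZ : ZZ (q := q) p (fun _ _ => True) ω = (nu n q).E w := by simp [ZZ, ind_true, hw]
  rw [hZ] at h1
  set Z := (nu n q).E w
  have e1 : ((nu n q).E fun σ => (nu n q).E fun τ => w σ * w τ * KK σ τ)
      = ∑ a, (nu n q).E (fun σ => w σ * XX σ a) ^ 2 := by
    simp only [KK, mul_sum, E_sum]
    refine sum_congr rfl fun a _ => ?_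
    rw [sq, ← E_mul_right]
    congr 1; funext σ
    rw [← E_mul_left]
    congr 1; funext τ; ring
  have e2 : (#B : ℝ) ^ 2 * Z ^ 2 ≤ ∑ a, (nu n q).E (fun σ => w σ * XX σ a) ^ 2 := by
    refine le_trans ?_ (sum_le_sum_of_subset_of_nonneg (subset_univ (B ×ˢ B))
      fun _ _ _ => sq_nonneg _)
    refine le_trans (le_of_eq ?_) (card_nsmul_le_sum _ _ (Z ^ 2) fun a ha => ?_)
    · simp [sq]
    · obtain ⟨a1, a2⟩ := mem_product.1 ha
      by_cases hx : ∃ σ, LL p (rr p σ) ω ≠ 0 ∧ (σ a.1 : Fin q) = σ a.2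
      · obtain ⟨σ, s1, s2⟩ := hx
        have : (fun τ => w τ * XX τ a) = fun τ => w τ * (q - 1) := funext fun τ => by
          by_cases hτ : LL p (rr p τ) ω = 0
          · simp [hw, hτ]
          · simp [XX, (hB σ τ (fun u v => proper_of_LL σ ω s1) (fun u v => proper_of_LL τ ω hτ)
              _ a1 _ a2).1 s2]
        rw [this, E_mul_right, mul_pow]
        exact le_mul_of_one_le_right (sq_nonneg _) (by nlinarith)
      · have : (fun τ => w τ * XX τ a) = fun τ => w τ * (-1) := funext fun τ => by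
          by_cases hτ : LL p (rr p τ) ω = 0
          · simp [hw, hτ]
          · simp [XX, show ¬ τ a.1 = τ a.2 from fun e => hx ⟨τ, hτ, e⟩]
        rw [this, E_mul_right, mul_pow]; simp [Z]
  have e3 : ((nu n q).E fun σ => (nu n q).E fun τ => w σ * w τ * KK σ τ)
      ≤ (nu n q).E fun σ => (nu n q).E fun τ => ξ ^ 2 * n ^ 2 * (w σ * w τ) + q ^ 2 * n ^ 2 *
        (ind (Bal σ) * LL p (rr p σ) ω
          * LL p (rr p τ) ω * Real.exp (c / n * (KK σ τ - ξ ^ 2 * n ^ 2))) := by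
    refine E_mono _ fun σ => E_mono _ fun τ => ?_
    have a1 := w0 σ
    have a2 := w0 τ
    have a3 := h.L0 τ ω
    have a4 : w τ ≤ LL p (rr p τ) ω := mul_le_of_le_one_left a3 (ind_le_one _)
    rcases le_total (KK σ τ) (ξ ^ 2 * n ^ 2) with hk | hk
    · refine le_add_of_le_of_nonneg (by rw [mul_comm]; gcongr) ?_
      exact mul_nonneg (by positivity) (mul_nonneg (mul_nonneg a1 a3) (Real.exp_pos _).le)
    · refine le_add_of_nonneg_of_le (by positivity) ?_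
      have b1 : KK σ τ ≤ q ^ 2 * n ^ 2 := by
        refine (sum_le_card_nsmul _ _ ((q : ℝ) ^ 2) fun a _ => ?_).trans (le_of_eq ?_)
        · simp only [XX]; split_ifs <;> nlinarith
        · simp [sq, mul_comm]
      have b2 : 1 ≤ Real.exp (c / n * (KK σ τ - ξ ^ 2 * n ^ 2)) :=
        Real.one_le_exp (mul_nonneg (div_nonneg h.hc hn.le) (by linarith))
      calc _ ≤ w σ * LL p (rr p τ) ω * (q ^ 2 * n ^ 2) * 1 := by
            rw [mul_one]; gcongr; exact le_trans (by positivity) hk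
        _ ≤ w σ * LL p (rr p τ) ω * (q ^ 2 * n ^ 2)
            * Real.exp (c / n * (KK σ τ - ξ ^ 2 * n ^ 2)) := by gcongr
        _ = _ := by simp only [hw]; ring
  simp only [E_add, E_mul_left (nu n q) (ξ ^ 2 * n ^ 2), E_mul_left (nu n q) (q ^ 2 * n ^ 2),
    E_mul_left (nu n q) (w _), E_mul_right (nu n q) ((nu n q).E w)] at e3
  have e4 : (q : ℝ) ^ 2 * n ^ 2 * (ξ ^ 2 / (16 * q ^ 2)) ≤ ξ ^ 2 * n ^ 2 * Z ^ 2 :=
    calc _ = ξ ^ 2 * n ^ 2 * (1 / 4) ^ 2 := by field_simp; norm_num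
      _ ≤ _ := by gcongr
  have e5 := mul_le_mul_of_nonneg_left h2.le (show (0 : ℝ) ≤ q ^ 2 * n ^ 2 by positivity)
  have e6 : (#B : ℝ) ^ 2 * Z ^ 2 ≤ (2 * ξ * n) ^ 2 * Z ^ 2 := by
    have : 0 ≤ ξ ^ 2 * n ^ 2 * Z ^ 2 := by positivity
    nlinarith
  exact (pow_le_pow_iff_left₀ (by positivity) (by positivity) two_ne_zero).1
    (le_of_mul_le_mul_right e6 (by positivity))

theorem Par.free_prob [NeZero q] (h : Par n q p κ t c) {ξ : ℝ} (hξ : 0 < ξ) :
    1 / (16 * (n + 1) ^ (q * q)) - (n + 1) ^ (q * q) * Real.exp (-(c / n * (ξ ^ 2 * n ^ 2)))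
      / (ξ ^ 2 / (16 * q ^ 2)) ≤ h.G.P fun ω => Free q (gr ω) (2 * ξ * n) := by
  have hq : (2 : ℝ) ≤ q := by exact_mod_cast h.hq
  have a1 := pz h.G (ZZ (q := q) p fun _ _ => True) (fun ω => 1 / 4 ≤ ZZ (q := q) p (fun _ _ => True) ω)
    (by positivity) (by
      have b1 := h.ZZ_ge (fun _ _ => True) zero_le_one fun σ _ => (P_true _ fun _ => trivial).ge
      have b2 : h.G.E (ZZ (q := q) p fun _ _ => True) ≤ h.G.E fun ω => 1 / 4 +
          ZZ (q := q) p (fun _ _ => True) ω * ind (1 / 4 ≤ ZZ (q := q) p (fun _ _ => True) ω) :=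
        E_mono _ fun ω => by
          by_cases hb : 1 / 4 ≤ ZZ (q := q) p (fun _ _ => True) ω
          · rw [ind_true hb]; linarith
          · rw [ind_false hb]; linarith
      rw [E_add, E_const] at b2
      linarith) (h.ZZ_sq _)
  have a2 := (markov h.G (fun ω => FP.pos _ _ fun σ => FP.pos _ _ fun τ => mul_nonneg
    (mul_nonneg (mul_nonneg (ind_nonneg (Bal σ)) (h.L0 σ ω)) (h.L0 τ ω)) (Real.exp_pos _).le)
    (show 0 < ξ ^ 2 / (16 * (q : ℝ) ^ 2) by positivity)).trans (div_le_div_of_nonneg_right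
      (h.far (x := ξ ^ 2 * n ^ 2) h.hc le_rfl) (by positivity))
  refine sub_le_iff_le_add.2 (a1.trans ((P_le_add _ fun ω hω => ?_).trans (add_le_add le_rfl a2)))
  exact or_iff_not_imp_right.2 fun h' => h.free_det ω hξ.le hω (not_le.1 h')

theorem blow {α : Type*} [DecidableEq α] (μ : FP α) (hn : 0 < n) (A : (Fin n → α) → Prop) {s : ℝ}
    (hs : 0 ≤ s) (hA : 2 * Real.exp (-s ^ 2 / (2 * n)) < (FP.pi fun _ : Fin n => μ).P A) :
    (FP.pi fun _ : Fin n => μ).P (fun ω => ¬ ∃ ω', A ω' ∧ (#{u | ω u ≠ ω' u} : ℝ) < 2 * s)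
      ≤ 2 * Real.exp (-s ^ 2 / (2 * n)) := by
  classical
  have hne : ∃ ω', A ω' := by
    by_contra h
    rw [P_false _ (not_exists.1 h)] at hA
    linarith [Real.exp_pos (-s ^ 2 / (2 * n))]
  have ex : ∀ ω : Fin n → α, ∃ m, ∃ ω', A ω' ∧ #{u | ω u ≠ ω' u} ≤ m := fun ω => by
    obtain ⟨ω', h⟩ := hne; exact ⟨_, ω', h, le_rfl⟩
  have lip : ∀ i ω a b, Nat.find (ex (Function.update ω i a))
      ≤ Nat.find (ex (Function.update ω i b)) + 1 := fun i ω a b => by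
    obtain ⟨ω', h1, h2⟩ := Nat.find_spec (ex (Function.update ω i b))
    refine Nat.find_min' _ ⟨ω', h1, le_trans (card_le_card fun u hu => ?_)
      ((card_insert_le i _).trans (Nat.succ_le_succ h2))⟩
    by_cases hi : u = i
    · simp [hi]
    · simpa [hi] using hu
  have tl := pi_tail (fun _ : Fin n => μ) (fun _ _ _ => True) (fun _ => 1) (fun _ => 1)
    (fun _ => conc_top _) (fun ω => (Nat.find (ex ω) : ℝ)) (fun i ω a b _ => by
      have h1 : (Nat.find (ex (Function.update ω i a)) : ℝ) ≤ Nat.find (ex (Function.update ω i b)) + 1 := by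
        exact_mod_cast lip i ω a b
      have h2 : (Nat.find (ex (Function.update ω i b)) : ℝ) ≤ Nat.find (ex (Function.update ω i a)) + 1 := by
        exact_mod_cast lip i ω b a
      rw [abs_le]; constructor <;> linarith) (W := n) (by exact_mod_cast hn) (by simp) hs
  set m := (FP.pi fun _ : Fin n => μ).E fun ω => (Nat.find (ex ω) : ℝ)
  have hm : m < s := by
    by_contra h
    refine absurd (le_trans (P_mono _ fun ω hω => ?_) tl) (not_le.2 hA)
    have : Nat.find (ex ω) = 0 := Nat.le_zero.1 (Nat.find_min' _ ⟨ω, hω, by simp⟩)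
    rw [this, Nat.cast_zero, zero_sub, abs_neg]
    exact (not_lt.1 h).trans (le_abs_self _)
  refine le_trans (P_mono _ fun ω hω => ?_) tl
  obtain ⟨ω', h1, h2⟩ := Nat.find_spec (ex ω)
  have h3 : (#{u | ω u ≠ ω' u} : ℝ) ≤ Nat.find (ex ω) := by exact_mod_cast h2
  have h4 : 2 * s ≤ #{u | ω u ≠ ω' u} := not_lt.1 fun h => hω ⟨ω', h1, h⟩
  exact le_trans (by linarith) (le_abs_self _)

end

end Pool.Agent.Lib.MP_4b2155_pr
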