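import Mathlib

set_option autoImplicit false

namespace Pool.Agent.Lib.MP_4b2155_pr

/-- orderings of the pairs of vertices -/
abbrev Ord (n : ℕ) := (⊤ : SimpleGraph (Fin n)).edgeSet ≃ Fin (n.choose 2)

/-- the graph formed by the first `t` pairs -/
def proc {n : ℕ} (π : Ord n) (t : ℕ) : SimpleGraph (Fin n) :=
  SimpleGraph.fromEdgeSet {e | ∃ h : e ∈ (⊤ : SimpleGraph (Fin n)).edgeSet, (π ⟨e, h⟩ : ℕ) < t}

/-- probability under the uniform random ordering -/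
noncomputable def prob (n : ℕ) (E : Ord n → Prop) : ℝ :=
  (Set.ncard {π | E π} : ℝ) / Nat.card (Ord n)

def Bilinked {α : Type} {k : ℕ} (G : SimpleGraph α) (V : Fin k → Set α) : Prop :=
  (∀ i, (V i).Nonempty ∧ G.IsIndepSet (V i)) ∧
    ∀ i j, i ≠ j → Disjoint (V i) (V j) ∧ (G.induce (V i ∪ V j)).Connected

def Coll {α : Type} {k : ℕ} (G : SimpleGraph α) (V : Fin k → Set α) : Prop :=
  Bilinked G V ∧ IsEmpty (G.induce (⋃ i, V i) ≃g (⊤ : SimpleGraph (Fin 3)))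

def First {n k : ℕ} (π : Ord n) (τ : ℕ) (V : Fin k → Set (Fin n)) : Prop :=
  Coll (proc π τ) V ∧ ∀ t < τ, ∀ W : Fin k → Set (Fin n), ¬ Coll (proc π t) W

def UniqCol {α : Type} (H : SimpleGraph α) (k : ℕ) : Prop :=
  H.Colorable k ∧ ∀ c c' : H.Coloring (Fin k), ∀ u v, c u = c v ↔ c' u = c' v

end Pool.Agent.Lib.MP_4b2155_pr
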