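import Pool.Agent.Lib.MP_4b2155_pr.Planted
import Pool.Agent.Lib.MP_4b2155_pr.Blow
import Pool.Agent.Lib.MP_4b2155_pr.Defs

set_option autoImplicit false

namespace Pool.Agent.Lib.MP_4b2155_pr

open Finset Pool.Agent.Lib.MP_ad359d_co FP

noncomputable section

variable {n k : ℕ}

def Good (G : SimpleGraph (Fin n)) (σ : Fin n → Fin k) (a : ℝ) : Prop :=
  (∀ j, (cnt (cls σ j) (InW G σ) : ℝ) < a / 2) ∧ (cnt univ (InU G σ) : ℝ) < a / 8 ∧ Exp G σ a ∧
    Sp G (2 * a)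

theorem closed_aux {G : SimpleGraph (Fin n)} {σ : Fin n → Fin k} {a : ℝ}
    (hE : Exp G σ a) (ha : a ≤ 9 / 100 * (n / k)) (C : Fin k → Finset (Fin n))
    (hC : ∀ i, C i ⊆ cls σ i) (hC2 : ∀ i, (#(cls σ i \ C i) : ℝ) ≤ a) {i j : Fin k} (hij : i ≠ j)
    (Y : Finset (Fin n)) (hY : Y ⊆ C i ∪ C j) (hc : ∀ u ∈ Y, ∀ v ∈ C j, G.Adj u v → v ∈ Y)
    (h1 : 2 * a < #Y) (h2 : (#Y : ℝ) ≤ 101 / 100 * (n / k)) (h3 : #(Y ∩ C j) ≤ #(Y ∩ C i)) :
    False := by
  have hd : Disjoint (C i) (C j) := disjoint_left.2 fun v h h' =>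
    hij ((mem_cls.1 (hC i h)).symm.trans (mem_cls.1 (hC j h')))
  have e : #(Y ∩ C i) + #(Y ∩ C j) = #Y := by
    rw [← card_union_of_disjoint (hd.mono inter_subset_right inter_subset_right),
      ← inter_union_distrib_left, inter_eq_left.2 hY]
  have e' : (#(Y ∩ C i) : ℝ) + #(Y ∩ C j) = #Y := by exact_mod_cast e
  have h3' : (#(Y ∩ C j) : ℝ) ≤ #(Y ∩ C i) := by exact_mod_cast h3
  have r : (#(Y ∩ C j ∪ cls σ j \ C j) : ℝ) ≤ #(Y ∩ C j) + #(cls σ j \ C j) := by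
    exact_mod_cast card_union_le _ _
  have := hC2 j
  obtain ⟨u, hu, v, hv, huv⟩ := hE i j hij (Y ∩ C i) (inter_subset_right.trans (hC i))
    (Y ∩ C j ∪ cls σ j \ C j) (union_subset (inter_subset_right.trans (hC j)) sdiff_subset)
    (by linarith) (by exact_mod_cast (show (#(Y ∩ C j ∪ cls σ j \ C j) : ℝ) ≤ 2 * #(Y ∩ C i) by
      linarith)) (by linarith)
  simp only [mem_sdiff, mem_union, mem_inter, not_or, not_and, not_not] at hu hv
  exact hv.2.1 (hc u hu.1 v (hv.2.2 hv.1) huv) (hv.2.2 hv.1)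

theorem core {G' G : SimpleGraph (Fin n)} {σ : Fin n → Fin k} {a : ℝ} (hσ : Bal σ)
    (hp : ∀ u v, G'.Adj u v → σ u ≠ σ v) (hG : Good G' σ a) (ha1 : 1 ≤ a)
    (ha : a ≤ 9 / 100 * (n / k)) (S : Finset (Fin n)) (hS : (#S : ℝ) ≤ a / 16)
    (hGG : ∀ u v, u ∉ S → v ∉ S → (G.Adj u v ↔ G'.Adj u v)) :
    ∃ V : Fin k → Set (Fin n), Bilinked G V := by
  classical
  obtain ⟨hW, hU, hE, hSp⟩ := hG
  rw [cnt_eq] at hU
  have z0 : (#(S ∪ univ.filter (InU G' σ)) : ℝ) ≤ #S + #(univ.filter (InU G' σ)) := by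
    exact_mod_cast card_union_le _ _
  obtain ⟨Z, z1, z2, z3⟩ := hSp.close (S ∪ univ.filter (InU G' σ)) (by linarith)
  have z4 : (#Z : ℝ) ≤ 2 * #(S ∪ univ.filter (InU G' σ)) := by exact_mod_cast z2
  set C : Fin k → Finset (Fin n) := fun i => (cls σ i).filter fun v => ¬ InW G' σ v ∧ v ∉ Z
  have hC : ∀ i, C i ⊆ cls σ i := fun i => filter_subset _ _
  have hC2 : ∀ i, (#(cls σ i \ C i) : ℝ) ≤ a := fun i => by
    have b1 : #(cls σ i \ C i) ≤ cnt (cls σ i) (InW G' σ) + #Z := by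
      rw [cnt_eq]
      refine le_trans (card_le_card fun v hv => ?_) (card_union_le _ _)
      simp only [mem_sdiff, mem_union, mem_filter, C] at hv ⊢
      tauto
    have b2 : (#(cls σ i \ C i) : ℝ) ≤ cnt (cls σ i) (InW G' σ) + #Z := by exact_mod_cast b1
    linarith [hW i]
  have hCS : ∀ i, ∀ v ∈ C i, v ∉ S := fun i v hv h =>
    (mem_filter.1 hv).2.2 (z1 (mem_union_left _ h))
  have hne : ∀ i, (C i).Nonempty := fun i => by
    rw [nonempty_iff_ne_empty]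
    intro h
    have b1 := hC2 i
    rw [h, sdiff_empty] at b1
    linarith [(abs_le.1 (hσ i)).1]
  have hdeg : ∀ i j, i ≠ j → ∀ w ∈ C i, 40 ≤ cnt (C j) (G'.Adj w) := fun i j hij w hw => by
    obtain ⟨w1, w2, w3⟩ := mem_filter.1 hw
    have hj : j ≠ σ w := by rw [mem_cls.1 w1]; exact hij.symm
    have b1 : 90 ≤ cnt (cls σ j) (G'.Adj w) := not_lt.1 fun h => w2 ⟨j, hj, h⟩
    have b2 : cnt (cls σ j) (fun u => InW G' σ u ∧ G'.Adj u w) < 10 := not_le.1 fun h =>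
      w3 (z1 (mem_union_right _ (mem_filter.2 ⟨mem_univ _, j, hj, h⟩)))
    have b3 := z3 w w3
    have b4 : cnt (cls σ j) (G'.Adj w) ≤ cnt (cls σ j) (fun u => InW G' σ u ∧ G'.Adj u w)
        + cnt Z (G'.Adj w) + cnt (C j) (G'.Adj w) := by
      simp only [cnt_eq]
      refine le_trans (card_le_card fun v hv => ?_) ((card_union_le _ _).trans
        (Nat.add_le_add_right (card_union_le _ _) _))
      simp only [mem_union, mem_filter, C, G'.adj_comm v w] at hv ⊢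
      tauto
    omega
  have hbig : ∀ i j, i ≠ j → ∀ Y ⊆ C i ∪ C j, Y.Nonempty →
      (∀ u ∈ Y, ∀ v ∈ C i ∪ C j, G'.Adj u v → v ∈ Y) → 101 / 100 * (n / k : ℝ) < #Y := by
    intro i j hij Y hY hY0 hc
    by_contra h2
    have h1 : 2 * a < #Y := by
      by_contra h1
      obtain ⟨v, hv, hd⟩ := hSp.low hY0 (not_lt.1 h1)
      rcases mem_union.1 (hY hv) with h | h
      · exact absurd ((hdeg i j hij v h).trans (cnt_le_of_inj id (fun u hu h' =>
          ⟨hc v hv u (mem_union_right _ hu) h', h'⟩) fun _ _ _ _ _ _ e => e)) (not_le.2 hd)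
      · exact absurd ((hdeg j i hij.symm v h).trans (cnt_le_of_inj id (fun u hu h' =>
          ⟨hc v hv u (mem_union_left _ hu) h', h'⟩) fun _ _ _ _ _ _ e => e)) (not_le.2 hd)
    rcases le_total #(Y ∩ C j) #(Y ∩ C i) with h3 | h3
    · exact closed_aux hE ha C hC hC2 hij Y hY
        (fun u hu v hv => hc u hu v (mem_union_right _ hv)) h1 (not_lt.1 h2) h3
    · exact closed_aux hE ha C hC hC2 hij.symm Y (by rwa [union_comm])
        (fun u hu v hv => hc u hu v (mem_union_left _ hv)) h1 (not_lt.1 h2) h3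
  refine ⟨fun i => C i, fun i => ⟨hne i, fun u hu v hv _ h => ?_⟩, fun i j hij => ⟨?_, ?_⟩⟩
  · exact hp u v ((hGG u v (hCS i u hu) (hCS i v hv)).1 h)
      ((mem_cls.1 (hC i hu)).trans (mem_cls.1 (hC i hv)).symm)
  · exact Set.disjoint_left.2 fun v h h' =>
      hij ((mem_cls.1 (hC i h)).symm.trans (mem_cls.1 (hC j h')))
  · have hm : ∀ {v}, v ∈ C i ∪ C j → v ∈ (C i : Set (Fin n)) ∪ C j := fun h => by simpa using h
    have hnS : ∀ v ∈ C i ∪ C j, v ∉ S := fun v hv => (mem_union.1 hv).elim (hCS i v) (hCS j v)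
    obtain ⟨x0, hx0⟩ := hne i
    have : Nonempty ↥((C i : Set (Fin n)) ∪ C j) := ⟨⟨x0, Or.inl hx0⟩⟩
    refine ⟨fun x y => ?_⟩
    by_contra hxy
    set R : Fin n → Prop := fun v => ∃ h, (G.induce ((C i : Set (Fin n)) ∪ C j)).Reachable x ⟨v, h⟩
    have hR : ∀ u ∈ C i ∪ C j, ∀ v ∈ C i ∪ C j, G'.Adj u v → R u → R v := fun u hu v hv h ⟨_, r⟩ =>
      ⟨hm hv, r.trans (SimpleGraph.Adj.reachable ((hGG u v (hnS u hu) (hnS v hv)).2 h))⟩
    have b1 := hbig i j hij ((C i ∪ C j).filter R) (filter_subset _ _)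
      ⟨x, mem_filter.2 ⟨mem_union.2 x.2, x.2, SimpleGraph.Reachable.refl _⟩⟩
      fun u hu v hv h => mem_filter.2 ⟨hv, hR u (mem_filter.1 hu).1 v hv h (mem_filter.1 hu).2⟩
    have b2 := hbig i j hij ((C i ∪ C j).filter fun v => ¬ R v) (filter_subset _ _)
      ⟨y, mem_filter.2 ⟨mem_union.2 y.2, fun ⟨_, r⟩ => hxy r⟩⟩
      fun u hu v hv h => mem_filter.2 ⟨hv, fun r =>
        (mem_filter.1 hu).2 (hR v hv u (mem_filter.1 hu).1 h.symm r)⟩
    have b3 := card_filter_add_card_filter_not (s := C i ∪ C j) R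
    have b4 : #(C i ∪ C j) ≤ #(cls σ i) + #(cls σ j) :=
      (card_union_le _ _).trans (add_le_add (card_le_card (hC i)) (card_le_card (hC j)))
    rw [← b3] at b4
    have b5 : (#((C i ∪ C j).filter R) : ℝ) + #((C i ∪ C j).filter fun v => ¬ R v)
      ≤ #(cls σ i) + #(cls σ j) := by exact_mod_cast b4
    linarith [(abs_le.1 (hσ i)).2, (abs_le.1 (hσ j)).2]

theorem Free.extend {q : ℕ} {G' G : SimpleGraph (Fin n)} {x z : ℝ} (hF : Free q G' x)
    (hSp : Sp G z) (S : Finset (Fin n)) (hS : (#S : ℝ) ≤ z)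
    (hGG : ∀ u v, u ∉ S → v ∉ S → (G.Adj u v ↔ G'.Adj u v)) : Free (q + 40) G (x + #S) := by
  intro B hB
  obtain ⟨c, hc⟩ := hSp.col S hS
  have ext : ∀ σ : Fin n → Fin q, (∀ u v, G'.Adj u v → σ u ≠ σ v) → ∀ u v, G.Adj u v →
      (if u ∈ S then Fin.natAdd q (c u) else Fin.castAdd 40 (σ u))
        ≠ if v ∈ S then Fin.natAdd q (c v) else Fin.castAdd 40 (σ v) := by
    intro σ hσ u v huv
    by_cases hu : u ∈ S <;> by_cases hv : v ∈ S <;> simp only [hu, hv, if_true, if_false]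
    · simpa using hc u hu v hv huv
    · intro e; have := congrArg Fin.val e; simp at this; omega
    · intro e; have := congrArg Fin.val e; simp at this; omega
    · simpa using hσ u v ((hGG u v hu hv).1 huv)
  have := hF (B \ S) fun σ τ h1 h2 u hu v hv => by
    simpa [(mem_sdiff.1 hu).2, (mem_sdiff.1 hv).2] using
      hB _ _ (ext σ h1) (ext τ h2) u (mem_sdiff.1 hu).1 v (mem_sdiff.1 hv).1
  have b : (#B : ℝ) ≤ #(B \ S) + #S := by exact_mod_cast card_le_card_sdiff_add_card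
  linarith

theorem Bilinked.large {G G' : SimpleGraph (Fin n)} {V : Fin k → Set (Fin n)} (h : Bilinked G V)
    (hk : 41 ≤ k) (hG : G ≤ G') {z : ℝ} (hSp : Sp G' z) : z < (⋃ i, V i).ncard := by
  classical
  by_contra hc
  rw [Set.ncard_eq_toFinset_card'] at hc
  obtain ⟨x0, hx0⟩ := (h.1 ⟨0, by omega⟩).1
  obtain ⟨v, hv, hd⟩ := hSp.low ⟨x0, by simpa using ⟨_, hx0⟩⟩ (not_lt.1 hc)
  obtain ⟨i, hi⟩ : ∃ i, v ∈ V i := by simpa using hv
  have ex : ∀ j, j ≠ i → ∃ u ∈ V j, G.Adj v u := fun j hj => by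
    obtain ⟨y, hy⟩ := (h.1 j).1
    obtain ⟨hd, hcon⟩ := h.2 i j hj.symm
    obtain ⟨w⟩ := hcon ⟨v, Or.inl hi⟩ ⟨y, Or.inr hy⟩
    cases w with
    | nil => exact absurd hy (Set.disjoint_left.1 hd hi)
    | @cons _ u _ a _ =>
      rcases u.2 with hu | hu
      · exact absurd a ((h.1 i).2 hi hu (G.ne_of_adj a))
      · exact ⟨u, hu, a⟩
  have : Nonempty (Fin n) := ⟨v⟩
  choose! f hf using ex
  have := cnt_le_of_inj (s := univ.erase i) (t := (⋃ i, V i).toFinset) (p := fun _ => True)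
    (q := G'.Adj v) f (fun j hj _ => ⟨by simpa using ⟨j, (hf j (ne_of_mem_erase hj)).1⟩,
      hG (hf j (ne_of_mem_erase hj)).2⟩) fun j hj l hl _ _ e => by
      by_contra hne
      exact Set.disjoint_left.1 (h.2 j l hne).1 (hf j (ne_of_mem_erase hj)).1
        (e ▸ (hf l (ne_of_mem_erase hl)).1)
  rw [cnt_true _ fun _ _ => trivial, card_erase_of_mem (mem_univ _), card_univ,
    Fintype.card_fin] at this
  omega

end

end Pool.Agent.Lib.MP_4b2155_pr
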