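import Pool.Agent.Lib.MP_4b2155_pr.Transfer

set_option autoImplicit false

namespace Pool.Agent.Lib.MP_4b2155_pr

open Finset Pool.Agent.Lib.MP_ad359d_co FP Filter Topology

noncomputable section

theorem tend (K : ℕ) {c : ℝ} (hc : 0 < c) :
    Tendsto (fun n : ℕ => ((n : ℝ) + 1) ^ K * Real.exp (-(c * n))) atTop (𝓝 0) := by
  have h1 : Tendsto (fun n : ℕ => c * ((n : ℝ) + 1)) atTop atTop :=
    (tendsto_atTop_add_const_right _ _ tendsto_natCast_atTop_atTop).const_mul_atTop hc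
  have h2 := ((Real.tendsto_pow_mul_exp_neg_atTop_nhds_zero K).comp h1).const_mul
    (Real.exp c / c ^ K)
  rw [mul_zero] at h2
  refine h2.congr fun n => ?_
  simp only [Function.comp, mul_add, mul_one, neg_add, Real.exp_add, Real.exp_neg c]
  rw [show c * n + c = c * (n + 1) by ring, mul_pow]
  field_simp

theorem tend0 (A : ℝ) {c : ℝ} (hc : 0 < c) :
    Tendsto (fun n : ℕ => A * Real.exp (-(c * n))) atTop (𝓝 0) := by
  simpa using (tend 0 hc).const_mul A

theorem ev_ge (A : ℝ) : ∀ᶠ n : ℕ in atTop, A ≤ n := tendsto_natCast_atTop_atTop.eventually_ge_atTop A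

structure HK (k : ℕ) (x l : ℝ) : Prop where
  hk : (k : ℝ) = x ^ 6
  hx : x = Real.exp l
  h1 : 1000 ≤ l
  h2 : 10 ^ 31 * l ^ 20 ≤ x

theorem ev_HK : ∀ᶠ k : ℕ in atTop, ∃ x l, HK k x l := by
  have h1 : Tendsto (fun k : ℕ => Real.log k / 6) atTop atTop :=
    (Real.tendsto_log_atTop.comp tendsto_natCast_atTop_atTop).atTop_div_const (by norm_num)
  have h2 := h1.eventually ((Real.tendsto_exp_div_pow_atTop 20).eventually_ge_atTop (10 ^ 31))
  filter_upwards [h1.eventually_ge_atTop 1000, h2, eventually_gt_atTop 0] with k a b c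
  refine ⟨_, _, ?_, rfl, a, by rwa [le_div_iff₀ (by positivity)] at b⟩
  rw [← Real.exp_nat_mul, Nat.cast_ofNat, mul_div_cancel₀ _ (by norm_num),
    Real.exp_log (by exact_mod_cast c)]

variable {k : ℕ} {x l : ℝ}

theorem HK.lx (h : HK k x l) : 10 ^ 31 * l ≤ x := by
  have := h.h1
  refine le_trans ?_ h.h2
  gcongr
  exact le_self_pow₀ (by linarith) (by norm_num)

theorem HK.xk (h : HK k x l) : x ≤ k := by
  rw [h.hk]; exact le_self_pow₀ (by linarith [h.lx, h.h1]) (by norm_num)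

theorem HK.par (h : HK k x l) {q : ℕ} (h1 : q ≤ k) (h2 : k ≤ q + 40) : ∀ᶠ n : ℕ in atTop,
    Par n q (9 * k * l / n) (48 / 10 * l / k) (x ^ 5) (l / k / 10) := by
  have a1 := h.h1
  have a2 := h.lx
  have a3 := h.xk
  have b1 : (q : ℝ) ≤ k := by exact_mod_cast h1
  have b2 : (k : ℝ) ≤ q + 40 := by exact_mod_cast h2
  have x0 : 0 < x := by linarith
  have k0 : (0 : ℝ) < k := by linarith
  have q0 : (0 : ℝ) < q := by linarith
  have t := (tend0 (q * 2) (c := 1 / (20000 * q ^ 2)) (by positivity)).eventually_le_const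
    (show (0 : ℝ) < 1 / 2 by norm_num)
  filter_upwards [t, ev_ge (900 * k * l), eventually_gt_atTop 0] with n c1 c2 c3
  have n0 : (0 : ℝ) < n := by exact_mod_cast c3
  have p1 : 9 * k * l / n ≤ 1 / 100 := by rw [div_le_iff₀ n0]; linarith
  refine ⟨c3, by exact_mod_cast (show (2 : ℝ) ≤ q by linarith), by positivity, by linarith,
    one_le_pow₀ (by linarith), by positivity, ?_, ?_, ?_, ?_⟩
  · have : 1 ≤ x ^ 5 := one_le_pow₀ (by linarith)
    rw [div_mul_eq_mul_div, div_le_one k0, h.hk]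
    calc _ ≤ 48 / 10 * l * (2 * (x ^ 5 + x ^ 5)) := by gcongr
      _ = 192 / 10 * l * x ^ 5 := by ring
      _ ≤ x * x ^ 5 := by gcongr; linarith
      _ = _ := by ring
  · rw [h.hx, Real.log_pow, Real.log_exp]
    calc _ ≤ 48 / 10 * l / k * (101 / 100 * k) := by gcongr
      _ = 4848 / 1000 * l := by field_simp; norm_num
      _ ≤ _ := by push_cast; linarith
  · calc _ ≤ n * (9 * k * l / n / (99 / 100) / (2 * (99 / 100 * k) ^ 2)) + l / k / 10 := by
          gcongr <;> linarith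
      _ = (9 / (99 / 100) / (2 * (99 / 100) ^ 2) + 1 / 10) * l / k := by field_simp
      _ ≤ _ := by gcongr; norm_num
  · refine le_trans (le_of_eq ?_) c1
    rw [mul_assoc]
    congr 3
    field_simp; norm_num

theorem HK.sp (h : HK k x l) : 2 / (k * x) ≤ 1 / 2 ∧
    (2 * (9 * k * l)) ^ 20 * (2 / (k * x)) ^ 18 ≤ 1 / 2 := by
  have a1 := h.h1
  have a2 := h.lx
  have a3 := h.xk
  have x0 : 0 < x := by linarith
  constructor
  · rw [div_le_iff₀ (by nlinarith)]; nlinarith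
  · calc _ = 18 ^ 20 * 2 ^ 18 * l ^ 20 / x ^ 6 := by rw [h.hk]; field_simp; ring
      _ ≤ _ := by
        rw [div_le_iff₀ (by positivity), ← h.hk]
        have := h.h2
        have : 0 ≤ l ^ 20 := by positivity
        have h3 : 2 * x ≤ k := by
          rw [h.hk]
          calc 2 * x ≤ x ^ 5 * x := by
                gcongr; exact le_trans (by linarith) (le_self_pow₀ (by linarith) (by norm_num))
            _ = _ := by ring
        linarith

theorem HK.good [NeZero k] (h : HK k x l) : ∀ᶠ n : ℕ in atTop, ∀ κ t c,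
    ∀ hp : Par n k (9 * k * l / n) κ t c, ∀ σ, Bal σ →
      1 / 2 ≤ (hp.pl σ).P fun ω => Good (gr ω) σ (1 / x * (n / k)) := by
  have a1 := h.h1
  have a2 := h.lx
  have a3 := h.xk
  have x0 : 0 < x := by linarith
  have k0 : (0 : ℝ) < k := by linarith
  have l2 : 0 < Real.log 2 := Real.log_pos (by norm_num)
  have t1 := (tend0 k (c := Real.log 2 / (2 * x * k)) (by positivity)).eventually_le_const
    (show (0 : ℝ) < 1 / 8 by norm_num)
  have t2 := (tend0 (k * k) (c := 1 / (2 * x * k)) (by positivity)).eventually_le_const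
    (show (0 : ℝ) < 1 / 8 by norm_num)
  filter_upwards [t1, t2, ev_ge (100 * k)] with n c1 c2 c3 κ t c hp σ hσ
  have n0 : (0 : ℝ) < n := by linarith
  have hμ : IsProd (hp.pl σ) (rr (9 * k * l / n) σ) := pl_prod _ _ _ _
  set p := 9 * k * l / n with hpd
  set m : ℝ := n / k with hm
  have m1 : 100 ≤ m := by rw [hm, le_div_iff₀ k0]; exact c3
  have r1 : 1 ≤ (k : ℝ) / (k - 1) := by rw [le_div_iff₀ (by linarith)]; linarith
  have r2 : (k : ℝ) / (k - 1) ≤ 10 / 9 := by rw [div_le_iff₀ (by linarith)]; linarith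
  have p0 := hp.p0
  have p1 := hp.p1
  have pm : p * m = 9 * l := by rw [hpd, hm]; field_simp
  have h0 : 0 ≤ p * (k / (k - 1)) := by positivity
  have h1 : p * (k / (k - 1)) ≤ 1 := by nlinarith
  have e1 : 9 * l ≤ p * (k / (k - 1)) * m := by nlinarith
  have e2 : p * (k / (k - 1)) * m ≤ 10 * l := by nlinarith
  have hb : k * (100 ^ 90 * Real.exp (-(99 / 100 * (p * (k / (k - 1))) * (99 / 100 * m - 1))))
      ≤ 1 / x ^ 2 := by
    have b1 : (100 : ℝ) ^ 90 ≤ Real.exp 450 := by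
      rw [show (450 : ℝ) = (450 : ℕ) * 1 by norm_num, Real.exp_nat_mul]
      calc (100 : ℝ) ^ 90 ≤ ((27 / 10) ^ 5) ^ 90 := by gcongr; norm_num
        _ = (27 / 10) ^ 450 := by rw [← pow_mul]
        _ ≤ _ := by gcongr; linarith [Real.exp_one_gt_d9]
    have b2 : (k : ℝ) = Real.exp (6 * l) := by rw [h.hk, h.hx, ← Real.exp_nat_mul]; norm_num
    have b3 : 1 / x ^ 2 = Real.exp (-(2 * l)) := by
      rw [h.hx, ← Real.exp_nat_mul, Real.exp_neg]; norm_num
    generalize p * (k / (k - 1)) = pt at *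
    rw [b3, b2]
    refine le_trans (mul_le_mul_of_nonneg_left (mul_le_mul_of_nonneg_right b1 (Real.exp_pos _).le)
      (Real.exp_pos _).le) ?_
    rw [← Real.exp_add, ← Real.exp_add]
    have b4 := mul_le_mul_of_nonneg_left m1 h0
    exact Real.exp_le_exp.2 (by linarith)
  have a0 : 0 < 1 / x * m := by positivity
  have W := W_prob (μ := hp.pl σ) hσ (b := 1 / x ^ 2) (by positivity) a0 (fun l T hT => by
    simpa using low_all hμ h0 h1 hσ hb l T hT ∅ (by simp) (by simp)) (by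
      rw [← hm, mul_assoc, mul_comm m, ← mul_assoc]
      gcongr
      rw [mul_one_div, div_le_div_iff₀ (by positivity) x0]; nlinarith)
  have U := U_prob (μ := hp.pl σ) hσ (b := p * (k / (k - 1)) * (1 / x ^ 2)) a0
    (fun l v hv T hT => by
      simpa using low_all hμ h0 h1 hσ hb l T hT {v} (by simpa using hv) (by simp)) (by
      rw [← hm, ← mul_assoc m, mul_comm m]
      calc _ ≤ 64 * (n * (k * (10 * l * (1 / x ^ 2)) ^ 10)) := by gcongr
        _ = 64 * 10 ^ 10 * l ^ 10 / x ^ 7 * (1 / x * m) := by rw [hm, h.hk]; field_simp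
        _ ≤ 1 * (1 / x * m) := by
          gcongr
          rw [div_le_one (by positivity)]
          have b1 : l ^ 10 ≤ l ^ 20 := pow_le_pow_right₀ (by linarith) (by norm_num)
          have b2 : x ≤ x ^ 7 := le_self_pow₀ (by linarith) (by norm_num)
          have := h.h2
          have : 0 ≤ l ^ 10 := by positivity
          linarith
        _ = _ := one_mul _)
  have X := Exp_prob hμ h0 h1 hσ (y := 1 / x) (by positivity) (by
    rw [div_le_one x0]; linarith) (by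
      rw [h.hx, one_div, ← Real.exp_neg, ← Real.exp_nat_mul, ← Real.exp_add, ← hm]
      exact Real.exp_le_exp.2 (by push_cast; linarith))
  have S := sp_prob (p := 2 * p) (d := 2 * (9 * k * l)) hμ (fun a => ⟨(rr_mem p0 p1 hp.hq σ a).1, by
    unfold rr; split_ifs <;> nlinarith⟩) (by positivity) hp.hn (by rw [hpd, mul_div_assoc 2])
    h.sp.1 h.sp.2
  have W2 : (k : ℝ) * (1 / 2) ^ ⌈1 / x * m / 2⌉₊ ≤ 1 / 8 := by
    refine le_trans ?_ c1
    gcongr
    rw [← Real.exp_log (show (0 : ℝ) < 1 / 2 by norm_num), ← Real.exp_nat_mul, one_div (2 : ℝ),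
      Real.log_inv]
    refine Real.exp_le_exp.2 ?_
    have := mul_le_mul_of_nonneg_left (Nat.le_ceil (1 / x * m / 2)) l2.le
    rw [show Real.log 2 / (2 * x * k) * n = Real.log 2 * (1 / x * m / 2) by rw [hm]; field_simp]
    linarith
  have X2 : (k : ℝ) * (k * Real.exp (-(1 / x * m / 2))) ≤ 1 / 8 := by
    refine le_trans (le_of_eq ?_) c2
    rw [mul_assoc]; congr 4; rw [hm]; field_simp
  have S2 : 1 / (n : ℝ) ≤ 1 / 8 := by gcongr; linarith
  have e : 2 / (k * x) * n = 2 * (1 / x * m) := by rw [hm]; field_simp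
  rw [e] at S
  have := P_not (hp.pl σ) fun ω => Good (gr ω) σ (1 / x * m)
  have f := (P_le_add (hp.pl σ) (r := fun ω => ¬ Good (gr ω) σ (1 / x * m)) fun ω hω => by
    simp only [Good, not_and_or, not_forall, not_lt] at hω; exact hω).trans (add_le_add W
      ((P_or_le _ _ _).trans (add_le_add U ((P_or_le _ _ _).trans (add_le_add X S)))))
  linarith

theorem off {n : ℕ} (ω ω' : Om n) (u v : Fin n) (hu : u ∉ ({u | ω u ≠ ω' u} : Finset _))
    (hv : v ∉ ({u | ω u ≠ ω' u} : Finset _)) : (gr ω).Adj u v ↔ (gr ω').Adj u v := by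
  simp only [mem_filter, mem_univ, true_and, not_not] at hu hv
  rcases le_total u v with h | h <;> simp [gr, ed, h, hu, hv]

def QQ (k : ℕ) {n : ℕ} (ε δ : ℝ) (G : SimpleGraph (Fin n)) : Prop :=
  (∃ V : Fin k → Set (Fin n), Bilinked G V) ∧ Sp G (ε * n) ∧ Free k G (δ * n)

theorem Par.blow {n q : ℕ} {p κ t c : ℝ} (h : Par n q p κ t c) (A : Om n → Prop) {η : ℝ}
    (hη : 0 ≤ η) (hA : 2 * Real.exp (-(η ^ 2 / 2 * n)) < h.G.P A) :
    h.G.P (fun ω => ¬ ∃ ω', A ω' ∧ ∃ S : Finset (Fin n), (#S : ℝ) ≤ 2 * (η * n) ∧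
      ∀ u v, u ∉ S → v ∉ S → ((gr ω).Adj u v ↔ (gr ω').Adj u v))
      ≤ 2 * Real.exp (-(η ^ 2 / 2 * n)) := by
  have n0 : (0 : ℝ) < n := by exact_mod_cast h.hn
  have e : -(η ^ 2 / 2 * n) = -(η * n) ^ 2 / (2 * n) := by field_simp
  rw [e] at hA ⊢
  refine le_trans (P_mono _ fun ω hω ⟨ω', h1, h2⟩ => hω ⟨ω', h1, _, h2.le, off ω ω'⟩)
    (MP_4b2155_pr.blow (FP.pi fun _ : Fin n => coin p h.p0.le h.lt.le) h.hn A (by positivity) hA)

theorem num2 {M E E' D : ℝ} (hM : 0 < M) (h : 2 * (M * E) + M * M * E' / D < 1 / 16) :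
    2 * E < 1 / (16 * M) - M * E' / D := by
  refine lt_of_mul_lt_mul_left ?_ hM.le
  rw [mul_sub, show M * (1 / (16 * M)) = 1 / 16 by field_simp, ← mul_div_assoc, ← mul_assoc M M]
  linarith

theorem HK.main {q : ℕ} (h : HK (q + 40) x l) {δ : ℝ} (hδ : 0 < δ) : ∃ c > 0, ∀ᶠ n : ℕ in atTop,
    1 - (1 / n + 4 * Real.exp (-(c * n)))
      ≤ prob n fun π => ∃ t, QQ (q + 40) (2 / ((q + 40 : ℕ) * x)) δ (proc π t) := by
  obtain ⟨k, hk⟩ : ∃ k, k = q + 40 := ⟨_, rfl⟩
  have ext : ∀ {n : ℕ} {G' G : SimpleGraph (Fin n)} {x z : ℝ}, Free q G' x → Sp G z →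
      ∀ S : Finset (Fin n), (#S : ℝ) ≤ z → (∀ u v, u ∉ S → v ∉ S → (G.Adj u v ↔ G'.Adj u v)) →
      Free k G (x + #S) := by subst hk; exact Free.extend
  rw [← hk] at h ⊢
  have a1 := h.h1
  have a2 := h.lx
  have a3 := h.xk
  have x0 : 0 < x := by linarith
  have k0 : (0 : ℝ) < k := by linarith
  have q0 : (0 : ℝ) < q := by rw [hk] at a3; push_cast at a3; linarith
  have : NeZero q := ⟨by rintro rfl; simp at q0⟩
  have : NeZero k := ⟨by omega⟩
  obtain ⟨η, η0, η1, η2⟩ : ∃ η : ℝ, 0 < η ∧ η ≤ 1 / (32 * k * x) ∧ η ≤ δ / 4 :=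
    ⟨min (1 / (32 * k * x)) (δ / 4), by positivity, min_le_left _ _, min_le_right _ _⟩
  refine ⟨η ^ 2 / 2, by positivity, ?_⟩
  have t1 := (tend (k * k) (c := η ^ 2 / 2) (by positivity)).eventually_lt_const
    (show (0 : ℝ) < 1 / 32 by norm_num)
  have t2 := ((tend (q * q) (c := η ^ 2 / 2) (by positivity)).const_mul 2).add
    ((tend (q * q + q * q) (c := l / k / 10 * (δ / 4) ^ 2) (by positivity)).div_const
      ((δ / 4) ^ 2 / (16 * q ^ 2)))
  simp only [mul_zero, zero_div, add_zero, pow_add] at t2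
  filter_upwards [t1, t2.eventually_lt_const (show (0 : ℝ) < 1 / 16 by norm_num), h.good,
    h.par (q := k) le_rfl (by omega), h.par (q := q) (by omega) hk.le, ev_ge (k * x)]
    with n c1 c2 c3 c4 c5 c6
  have n0 : (0 : ℝ) < n := by exact_mod_cast c4.hn
  have B1 := c4.blow _ η0.le (lt_of_lt_of_le (by
    rw [lt_div_iff₀ (by positivity)]; linarith) (c4.exists_prob _ (c3 _ _ _ c4)))
  have B2 := c5.blow _ η0.le (lt_of_lt_of_le (by
    rw [show l / k / 10 / n * ((δ / 4) ^ 2 * n ^ 2) = l / k / 10 * (δ / 4) ^ 2 * n by field_simp]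
    exact num2 (by positivity) c2) (c5.free_prob (ξ := δ / 4) (by positivity)))
  have hμ : IsProd c4.G _ := gnp_prod (n := n) _ c4.p0.le c4.lt.le
  have S := sp_prob (p := 9 * k * l / n) (d := 2 * (9 * k * l)) hμ (fun a => ⟨c4.p0.le, le_rfl⟩)
    c4.p0.le c4.hn (div_le_div_of_nonneg_right
      (le_mul_of_one_le_left (by positivity) one_le_two) n0.le) h.sp.1 h.sp.2
  refine le_trans ?_ (transfer hμ c4.p0.le c4.lt.le _)
  have g := P_not c4.G fun ω => QQ k (2 / (k * x)) δ (gr ω)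
  have s1 : 2 * (η * n) ≤ 1 / x * (n / k) / 16 :=
    calc _ ≤ 2 * (1 / (32 * k * x) * n) := by gcongr
      _ = _ := by field_simp; norm_num
  have s2 : 1 ≤ 1 / x * (n / k) := by
    rw [div_mul_div_comm, le_div_iff₀ (by positivity)]; linarith
  have s3 : 2 * (η * n) ≤ 2 / (k * x) * n := by
    rw [show 2 / (k * x) * n = 2 * (1 / x * (n / k)) by field_simp]; linarith
  have s4 : 1 / x * (n / k) ≤ 9 / 100 * (n / k) :=
    mul_le_mul_of_nonneg_right (by rw [div_le_iff₀ x0]; linarith) (by positivity)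
  have s5 := mul_le_mul_of_nonneg_right η2 n0.le
  have f := (P_le_add c4.G (r := fun ω => ¬ QQ k (2 / (k * x)) δ (gr ω)) fun ω hω => by
    by_contra hc
    obtain ⟨d1, hc⟩ := not_or.1 hc
    obtain ⟨d2, d3⟩ := not_or.1 hc
    obtain ⟨ω₁, ⟨σ, b1, b2, b3⟩, S₁, d2, d4⟩ := not_not.1 d2
    obtain ⟨ω₂, b4, S₂, d3, d5⟩ := not_not.1 d3
    exact hω ⟨core b1 b3 b2 s2 s4 S₁ (d2.trans s1) d4, not_not.1 d1, fun B hB =>
      (ext b4 (not_not.1 d1) S₂ (d3.trans s3) d5 B hB).trans (by linarith)⟩).trans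
    (add_le_add S ((P_or_le _ _ _).trans (add_le_add B1 B2)))
  rw [g] at f
  linarith

theorem proc_mono {n : ℕ} (π : Ord n) {s t : ℕ} (h : s ≤ t) : proc π s ≤ proc π t :=
  SimpleGraph.fromEdgeSet_mono fun _ ⟨h1, h2⟩ => ⟨h1, h2.trans_le h⟩

theorem final {n : ℕ} {ε δ : ℝ} (hk : 41 ≤ k) (hn : 3 ≤ ε * n) (π : Ord n) (t : ℕ)
    (h : QQ k ε δ (proc π t)) : (∃ τ, ∃ V : Fin k → Set (Fin n), First π τ V) ∧
      ∀ τ (V : Fin k → Set (Fin n)), First π τ V → ε * n ≤ (⋃ i, V i).ncard ∧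
        ∀ H : ((proc π τ).induce (⋃ i, V i)).Subgraph, UniqCol H.coe k →
          (H.verts.ncard : ℝ) ≤ δ * n := by
  classical
  obtain ⟨⟨V, hV⟩, hS, hF⟩ := h
  have hC : Coll (proc π t) V := ⟨hV, ⟨fun e => by
    have h1 := hV.large hk le_rfl hS
    rw [← Nat.card_coe_set_eq, Nat.card_congr e.toEquiv] at h1
    simp at h1; linarith⟩⟩
  have ex : ∃ t, ∃ W : Fin k → Set (Fin n), Coll (proc π t) W := ⟨t, V, hC⟩
  obtain ⟨W, hW⟩ := Nat.find_spec ex
  refine ⟨⟨_, W, hW, fun s hs W' h' => Nat.find_min ex hs ⟨W', h'⟩⟩, fun τ V' h' => ?_⟩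
  have hle := proc_mono π (not_lt.1 fun hlt => h'.2 t hlt V hC)
  refine ⟨(h'.1.1.large hk hle hS).le, fun H hH => ?_⟩
  rw [← Set.ncard_image_of_injective _ Subtype.val_injective, Set.ncard_eq_toFinset_card']
  refine hF _ fun σ σ' h1 h2 u hu v hv => ?_
  simp only [Set.mem_toFinset, Set.mem_image] at hu hv
  obtain ⟨u, hu, rfl⟩ := hu
  obtain ⟨v, hv, rfl⟩ := hv
  exact hH.2 (SimpleGraph.Coloring.mk (fun w => σ w.1.1) fun hw => h1 _ _ (hle (H.adj_sub hw)))
    (SimpleGraph.Coloring.mk (fun w => σ' w.1.1) fun hw => h2 _ _ (hle (H.adj_sub hw)))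
    ⟨u, hu⟩ ⟨v, hv⟩

theorem main : ∃ k₀ : ℕ, ∀ k ≥ k₀, ∃ ε : ℝ, 0 < ε ∧ ∀ δ : ℝ, 0 < δ →
    Tendsto (fun n => prob n fun π => (∃ τ, ∃ V : Fin k → Set (Fin n), First π τ V) ∧
      ∀ τ (V : Fin k → Set (Fin n)), First π τ V → ε * n ≤ (⋃ i, V i).ncard ∧
        ∀ H : ((proc π τ).induce (⋃ i, V i)).Subgraph, UniqCol H.coe k →
          (H.verts.ncard : ℝ) ≤ δ * n) atTop (𝓝 1) := by
  refine eventually_atTop.1 ?_
  filter_upwards [ev_HK, eventually_ge_atTop 41] with k ⟨x, l, h⟩ hk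
  have x0 : 0 < x := by linarith [h.h1, h.lx]
  have k0 : (0 : ℝ) < k := by linarith [h.xk]
  obtain ⟨q, rfl⟩ : ∃ q, k = q + 40 := ⟨k - 40, by omega⟩
  set k := q + 40
  refine ⟨2 / (k * x), by positivity, fun δ hδ => ?_⟩
  obtain ⟨c, hc, hev⟩ := h.main hδ
  have t := (tendsto_one_div_atTop_nhds_zero_nat.add (tend0 4 hc)).const_sub 1
  simp only [add_zero, sub_zero] at t
  refine tendsto_of_tendsto_of_tendsto_of_le_of_le' t tendsto_const_nhds ?_
    (Eventually.of_forall fun n => by rw [prob_eq]; exact P_le_one _ _)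
  filter_upwards [hev, ev_ge (2 * (k * x))] with n h1 h2
  refine h1.trans ?_
  rw [prob_eq, prob_eq]
  refine P_mono _ fun π ⟨t, ht⟩ => final hk ?_ π t ht
  rw [div_mul_eq_mul_div, le_div_iff₀ (by positivity)]
  nlinarith

end

end Pool.Agent.Lib.MP_4b2155_pr
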