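import Pool.Agent.Lib.MP_ad359d_co.Prob

set_option autoImplicit false

namespace Pool.Agent.Lib.MP_4b2155_pr

open Finset Pool.Agent.Lib.MP_ad359d_co FP

noncomputable section

abbrev Om (n : ℕ) := Fin n → Fin n → Bool

def coin (p : ℝ) (h0 : 0 ≤ p) (h1 : p ≤ 1) : FP Bool :=
  ofWeights univ (fun b => if b then p else 1 - p) (fun b _ => by cases b <;> simp <;> linarith)
    (by simp)

theorem coin_E (p : ℝ) (h0 : 0 ≤ p) (h1 : p ≤ 1) (g : Bool → ℝ) :
    (coin p h0 h1).E g = p * g true + (1 - p) * g false := by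
  simp [coin, ofWeights_E]

variable {n : ℕ}

def IsProd (μ : FP (Om n)) (r : Fin n × Fin n → ℝ) : Prop :=
  ∀ g : Fin n × Fin n → Bool → ℝ, μ.E (fun ω => ∏ a, g a (ω a.1 a.2))
    = ∏ a, (r a * g a true + (1 - r a) * g a false)

def gnp (n : ℕ) (p : ℝ) (h0 : 0 ≤ p) (h1 : p ≤ 1) : FP (Om n) :=
  pi fun _ => pi fun _ => coin p h0 h1

theorem gnp_prod (p : ℝ) (h0 : 0 ≤ p) (h1 : p ≤ 1) : IsProd (gnp n p h0 h1) fun _ => p := by
  intro g
  simp only [Fintype.prod_prod_type, gnp]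
  rw [pi_prod (fun _ : Fin n => pi fun _ : Fin n => coin p h0 h1)
    (fun u (x : Fin n → Bool) => ∏ v, g (u, v) (x v))]
  refine prod_congr rfl fun u _ => ?_
  rw [pi_prod (fun _ : Fin n => coin p h0 h1) (fun v => g (u, v))]
  exact prod_congr rfl fun v _ => coin_E ..

theorem IsProd.indep {μ : FP (Om n)} {r : Fin n × Fin n → ℝ} (h : IsProd μ r) {ι : Type*}
    (I : Finset ι) (c : ι → Fin n × Fin n) (hc : Set.InjOn c I) (g : ι → Bool → ℝ) :
    μ.E (fun ω => ∏ i ∈ I, g i (ω (c i).1 (c i).2))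
      = ∏ i ∈ I, (r (c i) * g i true + (1 - r (c i)) * g i false) := by
  have e := h fun a b => ∏ i ∈ I with c i = a, g i b
  have e1 : ∀ ω : Om n, ∏ a : Fin n × Fin n, ∏ i ∈ I with c i = a, g i (ω a.1 a.2)
      = ∏ i ∈ I, g i (ω (c i).1 (c i).2) := fun ω => by
    rw [← prod_fiberwise I c]
    exact prod_congr rfl fun a _ => prod_congr rfl fun i hi => by rw [(mem_filter.1 hi).2]
  simp only [e1] at e
  rw [e, ← prod_fiberwise I c]
  refine prod_congr rfl fun a _ => ?_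
  rcases (I.filter fun i => c i = a).eq_empty_or_nonempty with h0 | ⟨i, hi⟩
  · simp [h0]
  · have : (I.filter fun j => c j = a) = {i} := eq_singleton_iff_unique_mem.2 ⟨hi, fun j hj =>
      hc (mem_filter.1 hj).1 (mem_filter.1 hi).1 ((mem_filter.1 hj).2.trans (mem_filter.1 hi).2.symm)⟩
    simp [this, (mem_filter.1 hi).2]

def ed (ω : Om n) (u v : Fin n) : Bool := ω (min u v) (max u v)

theorem ed_comm (ω : Om n) (u v : Fin n) : ed ω u v = ed ω v u := by
  simp [ed, min_comm, max_comm]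

def gr (ω : Om n) : SimpleGraph (Fin n) where
  Adj u v := u ≠ v ∧ ed ω u v = true
  symm := ⟨fun u v h => ⟨h.1.symm, ed_comm ω u v ▸ h.2⟩⟩
  loopless := ⟨fun _ h => h.1 rfl⟩

theorem IsProd.cross {μ : FP (Om n)} {r : Fin n × Fin n → ℝ} (h : IsProd μ r)
    (T U : Finset (Fin n)) (hd : Disjoint T U) (g : Fin n → Fin n → Bool → ℝ) :
    μ.E (fun ω => ∏ w ∈ T, ∏ u ∈ U, g w u (ed ω w u))
      = ∏ w ∈ T, ∏ u ∈ U, (r (min w u, max w u) * g w u true
        + (1 - r (min w u, max w u)) * g w u false) := by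
  have := h.indep (T ×ˢ U) (fun a => (min a.1 a.2, max a.1 a.2)) ?_ (fun a => g a.1 a.2)
  · simpa only [prod_product, ed] using this
  · rintro ⟨a, b⟩ h1 ⟨a', b'⟩ h2 h3
    simp only [coe_product, Set.mem_prod, mem_coe, Prod.mk.injEq] at h1 h2 h3 ⊢
    have h4 : a ≠ b' := fun e => disjoint_left.1 hd h1.1 (e ▸ h2.2)
    have h5 : a' ≠ b := fun e => disjoint_left.1 hd h2.1 (e ▸ h1.2)
    rcases le_total a b with h6 | h6 <;> rcases le_total a' b' with h7 | h7 <;>
      simp only [h6, h7, min_eq_left, min_eq_right, max_eq_left, max_eq_right] at h3 <;> omega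

def lr (p r : ℝ) (b : Bool) : ℝ := if b then r / p else (1 - r) / (1 - p)

def LL (p : ℝ) (r : Fin n × Fin n → ℝ) (ω : Om n) : ℝ := ∏ a, lr p (r a) (ω a.1 a.2)

theorem LL_nonneg {p : ℝ} (h0 : 0 < p) (h1 : p < 1) {r : Fin n × Fin n → ℝ}
    (hr : ∀ a, 0 ≤ r a ∧ r a ≤ 1) (ω : Om n) : 0 ≤ LL p r ω :=
  prod_nonneg fun a _ => by
    have := hr a
    unfold lr; split_ifs
    · exact div_nonneg this.1 h0.le
    · exact div_nonneg (by linarith) (by linarith)

theorem LL_prod {p : ℝ} (h0 : 0 < p) (h1 : p < 1) (r : Fin n × Fin n → ℝ)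
    (g : Fin n × Fin n → Bool → ℝ) :
    (gnp n p h0.le h1.le).E (fun ω => LL p r ω * ∏ a, g a (ω a.1 a.2))
      = ∏ a, (r a * g a true + (1 - r a) * g a false) := by
  simp only [LL, ← prod_mul_distrib]
  rw [gnp_prod p h0.le h1.le fun a b => lr p (r a) b * g a b]
  refine prod_congr rfl fun a _ => ?_
  have : 1 - p ≠ 0 := by linarith
  simp only [lr, if_true, Bool.false_eq_true, if_false]
  field_simp

def pl {p : ℝ} (h0 : 0 < p) (h1 : p < 1) (r : Fin n × Fin n → ℝ) (hr : ∀ a, 0 ≤ r a ∧ r a ≤ 1) :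
    FP (Om n) where
  E := { toFun := fun f => (gnp n p h0.le h1.le).E fun ω => LL p r ω * f ω
         map_add' := fun f g => by simp only [Pi.add_apply, mul_add]; exact E_add ..
         map_smul' := fun c f => by
           simp only [Pi.smul_apply, smul_eq_mul, RingHom.id_apply, mul_left_comm _ c]
           exact E_mul_left .. }
  pos := fun f h => FP.pos _ _ fun ω => mul_nonneg (LL_nonneg h0 h1 hr ω) (h ω)
  one := by simpa using LL_prod h0 h1 r fun _ _ => 1

theorem pl_prod {p : ℝ} (h0 : 0 < p) (h1 : p < 1) (r : Fin n × Fin n → ℝ)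
    (hr : ∀ a, 0 ≤ r a ∧ r a ≤ 1) : IsProd (pl h0 h1 r hr) r := fun g => LL_prod h0 h1 r g

variable {q : ℕ}

/-- planted edge probabilities -/
def rr (p : ℝ) (σ : Fin n → Fin q) (a : Fin n × Fin n) : ℝ :=
  if a.1 < a.2 then (if σ a.1 = σ a.2 then 0 else p * (q / (q - 1))) else p

theorem rr_mem {p : ℝ} (h0 : 0 < p) (h1 : p ≤ 1 / 2) (hq : 2 ≤ q) (σ : Fin n → Fin q)
    (a : Fin n × Fin n) : 0 ≤ rr p σ a ∧ rr p σ a ≤ 1 := by
  have h2 : (2 : ℝ) ≤ q := by exact_mod_cast hq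
  have h3 : (q : ℝ) / (q - 1) ≤ 2 := by rw [div_le_iff₀ (by linarith)]; linarith
  have h4 : 0 ≤ (q : ℝ) / (q - 1) := div_nonneg (by linarith) (by linarith)
  unfold rr; split_ifs
  · simp
  · constructor <;> nlinarith
  · constructor <;> linarith

theorem rr_cross (p : ℝ) (σ : Fin n → Fin q) {w u : Fin n} (h : σ w ≠ σ u) :
    rr p σ (min w u, max w u) = p * (q / (q - 1)) := by
  have hne : w ≠ u := fun e => h (e ▸ rfl)
  rcases lt_or_gt_of_ne hne with h1 | h1
  · simp [rr, h1, h1.le, h]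
  · simp [rr, h1, h1.le, h.symm]

theorem proper_of_LL {p : ℝ} (σ : Fin n → Fin q) (ω : Om n) (h : LL p (rr p σ) ω ≠ 0)
    {u v : Fin n} (huv : (gr ω).Adj u v) : σ u ≠ σ v := by
  intro e
  apply h
  refine prod_eq_zero (mem_univ (min u v, max u v)) ?_
  have h2 : ω (min u v) (max u v) = true := huv.2
  rcases lt_or_gt_of_ne huv.1 with h1 | h1
  · simp only [h1.le, min_eq_left, max_eq_right] at h2 ⊢
    simp [lr, rr, h1, e, h2]
  · simp only [h1.le, min_eq_right, max_eq_left] at h2 ⊢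
    simp [lr, rr, h1, e, h2]

def XX (σ : Fin n → Fin q) (a : Fin n × Fin n) : ℝ := if σ a.1 = σ a.2 then q - 1 else -1

def KK (σ τ : Fin n → Fin q) : ℝ := ∑ a, XX σ a * XX τ a

theorem half_sum (f : Fin n × Fin n → ℝ) (hs : ∀ u v, f (u, v) = f (v, u))
    (hd : ∀ u, 0 ≤ f (u, u)) :
    ∑ a : Fin n × Fin n, (if a.1 < a.2 then f a else 0) ≤ (∑ a, f a) / 2 := by
  have e1 : ∑ a : Fin n × Fin n, (if a.1 < a.2 then f a else 0)
      = ∑ a : Fin n × Fin n, (if a.2 < a.1 then f a else 0) :=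
    Fintype.sum_equiv (Equiv.prodComm _ _) _ _ fun a => by simp [hs a.1 a.2, Prod.swap]
  have e2 : ∑ a : Fin n × Fin n, ((if a.1 < a.2 then f a else 0) + if a.2 < a.1 then f a else 0)
      ≤ ∑ a, f a := sum_le_sum fun a _ => by
    obtain ⟨u, v⟩ := a
    rcases lt_trichotomy u v with h | h | h
    · simp [h, h.not_gt]
    · simp [h, hd]
    · simp [h, h.not_gt]
  rw [sum_add_distrib] at e2
  linarith

theorem LL_mul {p : ℝ} (h0 : 0 < p) (h1 : p ≤ 1 / 2) (hq : 2 ≤ q) (σ τ : Fin n → Fin q) :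
    (gnp n p h0.le (by linarith)).E (fun ω => LL p (rr p σ) ω * LL p (rr p τ) ω)
      ≤ Real.exp (p / (1 - p) / (2 * (q - 1) ^ 2) * KK σ τ) := by
  have h2 : (2 : ℝ) ≤ q := by exact_mod_cast hq
  have h3 : (q : ℝ) - 1 ≠ 0 := by linarith
  have h4 : 1 - p ≠ 0 := by linarith
  have e := LL_prod h0 (by linarith) (rr p σ) fun a b => lr p (rr p τ a) b
  rw [show (fun ω => LL p (rr p σ) ω * LL p (rr p τ) ω)
    = fun ω => LL p (rr p σ) ω * ∏ a, lr p (rr p τ a) (ω a.1 a.2) from rfl, e]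
  set c := p / (1 - p) / (q - 1) ^ 2 with hc
  have hc0 : 0 ≤ c := by rw [hc]; have : 0 < 1 - p := by linarith
                         positivity
  calc _ ≤ ∏ a : Fin n × Fin n, Real.exp (c * if a.1 < a.2 then XX σ a * XX τ a else 0) := by
        refine prod_le_prod (fun a _ => ?_) fun a _ => ?_
        · have a1 := rr_mem h0 h1 hq σ a
          have a2 := rr_mem h0 h1 hq τ a
          simp only [lr, if_true, Bool.false_eq_true, if_false]
          exact add_nonneg (mul_nonneg a1.1 (div_nonneg a2.1 h0.le))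
            (mul_nonneg (by linarith) (div_nonneg (by linarith) (by linarith)))
        · refine le_trans (le_of_eq ?_) (Real.add_one_le_exp _)
          simp only [lr, if_true, Bool.false_eq_true, if_false, rr, XX, hc]
          split_ifs <;> field_simp <;> ring
    _ ≤ _ := by
        rw [← Real.exp_sum, ← mul_sum]
        refine Real.exp_le_exp.2 ?_
        have := half_sum (fun a => XX σ a * XX τ a) (fun u v => by simp [XX, eq_comm])
          (fun u => by simp only [XX, if_true]; nlinarith)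
        calc _ ≤ c * (KK σ τ / 2) := mul_le_mul_of_nonneg_left this hc0
          _ = _ := by rw [hc]; field_simp

end

end Pool.Agent.Lib.MP_4b2155_pr
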