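import Pool.Agent.Lib.MP_4b2155_pr.Model

set_option autoImplicit false

namespace Pool.Agent.Lib.MP_4b2155_pr

open Finset Pool.Agent.Lib.MP_ad359d_co FP

noncomputable section

variable {n q : ℕ}

def nu (n q : ℕ) [NeZero q] : FP (Fin n → Fin q) := pi fun _ => unif univ univ_nonempty

def cls {β : Type*} [DecidableEq β] (σ : Fin n → β) (i : β) : Finset (Fin n) :=
  univ.filter fun v => σ v = i

def Bal (σ : Fin n → Fin q) : Prop := ∀ i, |(#(cls σ i) : ℝ) - n / q| ≤ n / q / 100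

theorem bal_prob [NeZero q] (hn : 0 < n) :
    (nu n q).P (fun σ => ¬ Bal σ) ≤ q * (2 * Real.exp (-(n / q / 100) ^ 2 / (2 * n))) := by
  have h := P_exists_le' (nu n q) (fun (i : Fin q) σ => (n : ℝ) / q / 100 ≤ |(#(cls σ i) : ℝ) - n / q|)
    (δ := 2 * Real.exp (-(n / q / 100) ^ 2 / (2 * n))) fun i => by
      have := pi_hoeffding (fun _ : Fin n => unif (univ : Finset (Fin q)) univ_nonempty) univ
        (fun _ a => ind (a = i)) (c := 1) (fun _ _ a b => abs_ind_sub_le _ _) (W := n)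
        (t := n / q / 100) (by positivity) (by simp) (by positivity)
      refine le_trans (le_of_eq (P_congr _ fun σ => ?_)) this
      have e1 : (unif (univ : Finset (Fin q)) univ_nonempty).E (fun a => ind (a = i)) = 1 / q := by
        rw [unif_E]; simp [ind_eq_ite]
      rw [e1]
      simp [cls, ind_eq_ite, div_eq_mul_inv]
  rw [Fintype.card_fin] at h
  refine le_trans (P_mono _ fun σ hσ => ?_) h
  obtain ⟨i, hi⟩ := not_forall.1 hσ
  exact ⟨i, (not_le.1 hi).le⟩

theorem phi_bound {y t K κ : ℝ} (h0 : 0 ≤ y) (hK : y ≤ K) (ht : 1 ≤ t) (hκ : 0 ≤ κ)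
    (h1 : κ * (2 * (t + 1)) ≤ 1) (h2 : κ * K ≤ Real.log t - 1) :
    κ * (y - 1) ^ 2 ≤ y * Real.log y - y + 1 := by
  rcases le_total y t with h | h
  · obtain ⟨s, hs, rfl⟩ : ∃ s : ℝ, 0 ≤ s ∧ y = s ^ 2 := ⟨√y, Real.sqrt_nonneg _, (Real.sq_sqrt h0).symm⟩
    have a1 : s ^ 2 - s ≤ s ^ 2 * Real.log s := by
      rcases hs.eq_or_lt with rfl | hs'
      · simp
      · have := Real.one_sub_inv_le_log_of_pos hs'
        calc _ = s ^ 2 * (1 - s⁻¹) := by field_simp
          _ ≤ _ := by gcongr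
    have a2 : κ * (s + 1) ^ 2 ≤ 1 := le_trans (by gcongr; nlinarith [sq_nonneg (s - 1)]) h1
    rw [Real.log_pow]
    calc _ = κ * (s + 1) ^ 2 * (s - 1) ^ 2 := by ring
      _ ≤ 1 * (s - 1) ^ 2 := by gcongr
      _ ≤ _ := by push_cast; nlinarith
  · have a1 : Real.log t ≤ Real.log y := Real.log_le_log (by linarith) h
    have a2 : (y - 1) ^ 2 ≤ y * K := by nlinarith
    calc _ ≤ κ * (y * K) := by gcongr
      _ = y * (κ * K) := by ring
      _ ≤ y * (Real.log y - 1) := by gcongr; linarith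
      _ ≤ _ := by linarith

theorem sum_cls {β : Type*} [Fintype β] [DecidableEq β] (σ : Fin n → β) (g : β → ℝ) :
    ∑ v, g (σ v) = ∑ b, #(cls σ b) * g b := by
  rw [← sum_fiberwise univ σ]
  refine sum_congr rfl fun b _ => ?_
  rw [sum_congr rfl fun v hv => by rw [(mem_filter.1 hv).2], sum_const, nsmul_eq_mul, cls]

theorem sum_same {β : Type*} [Fintype β] [DecidableEq β] (σ : Fin n → β) :
    ∑ a : Fin n × Fin n, (if σ a.1 = σ a.2 then (1 : ℝ) else 0) = ∑ b, (#(cls σ b) : ℝ) ^ 2 := by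
  rw [Fintype.sum_prod_type]
  have : ∀ u, ∑ v, (if σ u = σ v then (1 : ℝ) else 0) = #(cls σ (σ u)) := fun u => by
    simp [cls, eq_comm]
  simp only [this]
  rw [sum_cls σ fun b => (#(cls σ b) : ℝ)]
  exact sum_congr rfl fun b _ => by ring

theorem sum_card_cls {β : Type*} [Fintype β] [DecidableEq β] (σ : Fin n → β) :
    ∑ b, (#(cls σ b) : ℝ) = n := by
  simpa using (sum_cls σ fun _ => 1).symm

theorem KK_le (σ τ : Fin n → Fin q) :
    KK σ τ ≤ q ^ 2 * ∑ b, (#(cls (fun v => (σ v, τ v)) b) : ℝ) ^ 2 - n ^ 2 := by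
  have c : ∀ σ : Fin n → Fin q, (n : ℝ) ^ 2 ≤ q * ∑ b, (#(cls σ b) : ℝ) ^ 2 := fun σ => by
    have := sq_sum_le_card_mul_sum_sq (s := univ) (f := fun b => (#(cls σ b) : ℝ))
    simpa [sum_card_cls] using this
  have c1 := c σ
  have c2 := c τ
  rw [← sum_same] at c1 c2 ⊢
  have : KK σ τ = q ^ 2 * ∑ a : Fin n × Fin n, (if (σ a.1, τ a.1) = (σ a.2, τ a.2) then (1 : ℝ) else 0)
      - q * ∑ a : Fin n × Fin n, (if σ a.1 = σ a.2 then (1 : ℝ) else 0)
      - q * ∑ a : Fin n × Fin n, (if τ a.1 = τ a.2 then (1 : ℝ) else 0)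
      + ∑ _a : Fin n × Fin n, (1 : ℝ) := by
    simp only [KK, mul_sum, ← sum_sub_distrib, ← sum_add_distrib]
    refine sum_congr rfl fun a _ => ?_
    by_cases h1 : σ a.1 = σ a.2 <;> by_cases h2 : τ a.1 = τ a.2 <;> simp [XX, h1, h2] <;> ring
  rw [this]
  simp only [sum_const, card_univ, Fintype.card_prod, Fintype.card_fin, nsmul_eq_mul]
  push_cast
  nlinarith

theorem exp_KK_le (hn : 0 < n) (hq : 0 < q) {κ t : ℝ} (ht : 1 ≤ t) (hκ : 0 ≤ κ)
    (h1 : κ * (2 * (t + 1)) ≤ 1) (h2 : κ * (101 / 100 * q) ≤ Real.log t - 1)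
    (σ τ : Fin n → Fin q) (hσ : Bal σ) :
    Real.exp (κ / n * KK σ τ)
      ≤ ∏ v, (q ^ 2 * #(cls (fun v => (σ v, τ v)) (σ v, τ v)) / n : ℝ) := by
  set N : Fin q × Fin q → ℝ := fun b => #(cls (fun v => (σ v, τ v)) b) with hN
  have hn' : (0 : ℝ) < n := by exact_mod_cast hn
  have hq' : (0 : ℝ) < q := by exact_mod_cast hq
  have hs : ∑ b, N b = n := sum_card_cls _
  have e1 : ∏ v, (q ^ 2 * N (σ v, τ v) / n : ℝ)
      = Real.exp (∑ b, N b * Real.log (q ^ 2 * N b / n)) := by
    rw [← sum_cls (fun v => (σ v, τ v)) fun b => Real.log (q ^ 2 * N b / n), Real.exp_sum]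
    refine prod_congr rfl fun v _ => (Real.exp_log ?_).symm
    have : 0 < N (σ v, τ v) := by
      simp only [hN, Nat.cast_pos, card_pos]; exact ⟨v, by simp [cls]⟩
    positivity
  rw [e1]
  refine Real.exp_le_exp.2 ?_
  have b1 : ∀ b, κ * (q ^ 2 * N b / n - 1) ^ 2
      ≤ q ^ 2 * N b / n * Real.log (q ^ 2 * N b / n) - q ^ 2 * N b / n + 1 := fun b => by
    refine phi_bound (by positivity) ?_ ht hκ h1 h2
    have a1 : N b ≤ #(cls σ b.1) := by
      simp only [hN, Nat.cast_le]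
      exact card_le_card fun v hv => by
        simp only [cls, mem_filter, mem_univ, true_and] at hv ⊢; rw [← hv]
    have a2 := (abs_le.1 (hσ b.1)).2
    calc _ ≤ q ^ 2 * (n / q + n / q / 100 : ℝ) / n := by gcongr; linarith
      _ = _ := by field_simp; ring
  have b2 := sum_le_sum fun b (_ : b ∈ univ) => mul_le_mul_of_nonneg_left (b1 b)
    (show (0 : ℝ) ≤ n / q ^ 2 by positivity)
  have b3 : ∑ b, n / q ^ 2 * (κ * (q ^ 2 * N b / n - 1) ^ 2)
      = κ / n * (q ^ 2 * ∑ b, N b ^ 2 - n ^ 2) := by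
    have : ∀ b, n / q ^ 2 * (κ * (q ^ 2 * N b / n - 1) ^ 2)
        = κ / n * q ^ 2 * N b ^ 2 - 2 * κ * N b + κ * n / q ^ 2 := fun b => by field_simp; ring
    simp only [this, sum_add_distrib, sum_sub_distrib, ← mul_sum, hs, sum_const, card_univ,
      Fintype.card_prod, Fintype.card_fin, nsmul_eq_mul]
    push_cast; field_simp; ring
  have b4 : ∑ b, n / q ^ 2 * (q ^ 2 * N b / n * Real.log (q ^ 2 * N b / n) - q ^ 2 * N b / n + 1)
      = ∑ b, N b * Real.log (q ^ 2 * N b / n) := by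
    have : ∀ b, n / q ^ 2 * (q ^ 2 * N b / n * Real.log (q ^ 2 * N b / n) - q ^ 2 * N b / n + 1)
        = N b * Real.log (q ^ 2 * N b / n) - N b + n / q ^ 2 := fun b => by field_simp
    simp only [this, sum_add_distrib, sum_sub_distrib, hs, sum_const, card_univ,
      Fintype.card_prod, Fintype.card_fin, nsmul_eq_mul]
    generalize ∑ b, N b * Real.log (q ^ 2 * N b / n) = z
    push_cast; field_simp; ring
  rw [b3, b4] at b2
  exact le_trans (mul_le_mul_of_nonneg_left (KK_le σ τ) (by positivity)) b2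

theorem exp_moment [NeZero q] (hn : 0 < n) {κ t : ℝ} (ht : 1 ≤ t) (hκ : 0 ≤ κ)
    (h1 : κ * (2 * (t + 1)) ≤ 1) (h2 : κ * (101 / 100 * q) ≤ Real.log t - 1) :
    (nu n q).E (fun σ => (nu n q).E fun τ => ind (Bal σ) * Real.exp (κ / n * KK σ τ))
      ≤ (n + 1) ^ (q * q) := by
  have hq : 0 < q := NeZero.pos q
  have hn' : (0 : ℝ) < n := by exact_mod_cast hn
  have hq' : (0 : ℝ) < q := by exact_mod_cast hq
  set T := (Fintype.piFinset fun _ : Fin q × Fin q => range (n + 1)).filter fun N => ∑ b, N b = n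
  calc _ ≤ (nu n q).E (fun σ => (nu n q).E fun τ =>
        ∑ N ∈ T, ∏ v, (q ^ 2 * N (σ v, τ v) / n : ℝ)) := by
        refine E_mono _ fun σ => E_mono _ fun τ => ?_
        by_cases hσ : Bal σ
        · rw [ind_true hσ, one_mul]
          refine (exp_KK_le hn hq ht hκ h1 h2 σ τ hσ).trans (single_le_sum
            (f := fun N : Fin q × Fin q → ℕ => ∏ v, (q ^ 2 * N (σ v, τ v) / n : ℝ))
            (a := fun b => #(cls (fun v => (σ v, τ v)) b)) (fun _ _ => by positivity) ?_)
          simp only [T, mem_filter, Fintype.mem_piFinset, mem_range]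
          refine ⟨fun b => Nat.lt_succ_of_le ((card_le_univ _).trans (by simp)), ?_⟩
          exact_mod_cast sum_card_cls fun v => (σ v, τ v)
        · rw [ind_false hσ, zero_mul]; positivity
    _ = ∑ N ∈ T, 1 := by
        simp only [E_sum]
        refine sum_congr rfl fun N hN => ?_
        have hs : ∑ b, (N b : ℝ) = n := by exact_mod_cast (mem_filter.1 hN).2
        simp only [nu]
        have e : ∀ σ : Fin n → Fin q, (pi fun _ : Fin n => unif (univ : Finset (Fin q)) univ_nonempty).E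
            (fun τ => ∏ v, (q ^ 2 * N (σ v, τ v) / n : ℝ)) = ∏ v, (∑ j, q ^ 2 * N (σ v, j) / n : ℝ) / q :=
          fun σ => by
            rw [pi_prod _ fun v j => (q ^ 2 * N (σ v, j) / n : ℝ)]
            simp [unif_E]
        simp only [e]
        rw [pi_prod _ fun _ i => (∑ j, q ^ 2 * N (i, j) / n : ℝ) / q]
        refine prod_eq_one fun v _ => ?_
        rw [unif_E]
        simp only [← sum_div, ← mul_sum, card_univ, Fintype.card_fin]
        rw [← Fintype.sum_prod_type (f := fun b => (N b : ℝ)), hs]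
        field_simp
    _ ≤ _ := by
        rw [sum_const, nsmul_eq_mul, mul_one]
        have := card_filter_le (Fintype.piFinset fun _ : Fin q × Fin q => range (n + 1))
          fun N => ∑ b, N b = n
        simp only [Fintype.card_piFinset, card_range, prod_const, card_univ, Fintype.card_prod,
          Fintype.card_fin] at this
        exact_mod_cast this

end

end Pool.Agent.Lib.MP_4b2155_pr
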