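import Pool.Agent.Lib.MP_4b2155_pr.Sparse
import Pool.Agent.Lib.MP_4b2155_pr.Moment

set_option autoImplicit false

namespace Pool.Agent.Lib.MP_4b2155_pr

open Finset Pool.Agent.Lib.MP_ad359d_co FP

noncomputable section

variable {n k : ℕ}

def InW (G : SimpleGraph (Fin n)) (σ : Fin n → Fin k) (w : Fin n) : Prop :=
  ∃ j, j ≠ σ w ∧ cnt (cls σ j) (G.Adj w) < 90

def InU (G : SimpleGraph (Fin n)) (σ : Fin n → Fin k) (v : Fin n) : Prop :=
  ∃ l, l ≠ σ v ∧ 10 ≤ cnt (cls σ l) fun w => InW G σ w ∧ G.Adj w v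

def Exp (G : SimpleGraph (Fin n)) (σ : Fin n → Fin k) (a : ℝ) : Prop :=
  ∀ i j, i ≠ j → ∀ A ⊆ cls σ i, ∀ R ⊆ cls σ j, a ≤ #A → #R ≤ 2 * #A → (#R : ℝ) ≤ 6 / 10 * (n / k) →
    ∃ u ∈ A, ∃ v ∈ cls σ j \ R, G.Adj u v

theorem mem_cls {β : Type*} [DecidableEq β] {σ : Fin n → β} {i : β} {v : Fin n} :
    v ∈ cls σ i ↔ σ v = i := by simp [cls]

variable {μ : FP (Om n)} {p : ℝ} {σ : Fin n → Fin k}

theorem low_one (hμ : IsProd μ (rr p σ)) (h0 : 0 ≤ p * (k / (k - 1))) (h1 : p * (k / (k - 1)) ≤ 1)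
    (hσ : Bal σ) (l : Fin k) (T : Finset (Fin n)) (hT : T ⊆ cls σ l) (O : Finset (Fin n))
    (hO : ∀ v ∈ O, σ v ≠ l) (hO1 : #O ≤ 1) (f : Fin n → Fin k) (hf : ∀ w ∈ T, f w ≠ l) :
    μ.P (fun ω => ∀ w ∈ T, cnt (cls σ (f w)) ((gr ω).Adj w) < 90 ∧ ∀ v ∈ O, (gr ω).Adj w v)
      ≤ ((p * (k / (k - 1))) ^ #O * (100 ^ 90 * Real.exp (-(99 / 100 * (p * (k / (k - 1)))
        * (99 / 100 * (n / k) - 1))))) ^ #T := by
  classical
  set pt := p * (k / (k - 1))
  set U : Finset (Fin n) := univ.filter fun u => σ u ≠ l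
  set g : Fin n → Fin n → Bool → ℝ := fun w u b =>
    if u ∈ O then (if b then 1 else 0) else if σ u = f w ∧ b then 1 / 100 else 1 with hg
  have hOU : O ⊆ U := fun v hv => mem_filter.2 ⟨mem_univ _, hO v hv⟩
  have e := hμ.cross T U (disjoint_left.2 fun w hw hw' => (mem_filter.1 hw').2 (mem_cls.1 (hT hw))) g
  calc _ ≤ μ.E fun ω => (100 ^ 90) ^ #T * ∏ w ∈ T, ∏ u ∈ U, g w u (ed ω w u) := by
        refine E_mono _ fun ω => ?_
        rw [ind_forall, ← prod_const, ← prod_mul_distrib]
        refine prod_le_prod (fun _ _ => ind_nonneg _) fun w hw => ?_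
        by_cases h : cnt (cls σ (f w)) ((gr ω).Adj w) < 90 ∧ ∀ v ∈ O, (gr ω).Adj w v
        · rw [ind_true h]
          have a1 : ∏ u ∈ U, (if u ∈ (cls σ (f w)).filter ((gr ω).Adj w) then (1 / 100 : ℝ) else 1)
              ≤ ∏ u ∈ U, g w u (ed ω w u) := by
            refine prod_le_prod (fun _ _ => by split_ifs <;> norm_num) fun u hu => ?_
            simp only [hg]
            by_cases huO : u ∈ O
            · rw [if_pos huO, if_pos (h.2 u huO).2]; split_ifs <;> norm_num
            · rw [if_neg huO]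
              by_cases hc : σ u = f w ∧ ed ω w u = true
              · rw [if_pos hc, if_pos (mem_filter.2 ⟨mem_cls.2 hc.1, fun e =>
                  hf w hw (by rw [← hc.1, ← e]; exact mem_cls.1 (hT hw)), hc.2⟩)]
              · rw [if_neg hc]; split_ifs <;> norm_num
          refine le_trans ?_ (mul_le_mul_of_nonneg_left a1 (by positivity))
          rw [prod_ite_mem, prod_const]
          have a2 : #(U ∩ (cls σ (f w)).filter ((gr ω).Adj w)) ≤ 90 :=
            (card_le_card inter_subset_right).trans (by rw [← cnt_eq]; exact h.1.le)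
          calc (1 : ℝ) = 100 ^ 90 * (1 / 100) ^ 90 := by norm_num
            _ ≤ _ := by gcongr _ * ?_; exact pow_le_pow_of_le_one (by norm_num) (by norm_num) a2
        · rw [ind_false h]
          exact mul_nonneg (by positivity) (prod_nonneg fun u _ => by
            simp only [hg]; split_ifs <;> norm_num)
    _ ≤ _ := by
        rw [E_mul_left, e, ← prod_const, ← prod_const, ← prod_mul_distrib]
        refine prod_le_prod (fun w hw => mul_nonneg (by positivity) (prod_nonneg fun u hu => ?_))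
          fun w hw => ?_
        · rw [rr_cross p σ (by rw [mem_cls.1 (hT hw)]; exact (mem_filter.1 hu).2.symm)]
          refine add_nonneg (mul_nonneg h0 ?_) (mul_nonneg (by linarith) ?_) <;>
            simp only [hg] <;> split_ifs <;> norm_num
        rw [mul_left_comm]
        gcongr
        have a1 : ∀ u ∈ U, rr p σ (min w u, max w u) * g w u true
            + (1 - rr p σ (min w u, max w u)) * g w u false = (if u ∈ O then pt else 1)
              * if u ∈ cls σ (f w) \ O then 1 - 99 / 100 * pt else 1 := fun u hu => by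
          rw [rr_cross p σ (by rw [mem_cls.1 (hT hw)]; exact (mem_filter.1 hu).2.symm)]
          by_cases huO : u ∈ O <;> by_cases hc : σ u = f w <;> simp [hg, huO, hc, mem_cls, pt]
          ring
        rw [prod_congr rfl a1, prod_mul_distrib, prod_ite_mem, prod_ite_mem, prod_const, prod_const,
          inter_eq_right.2 hOU, inter_eq_right.2 (fun u hu => mem_filter.2 ⟨mem_univ _, by
            rw [mem_cls.1 (mem_sdiff.1 hu).1]; exact hf w hw⟩)]
        gcongr
        have a2 : 99 / 100 * (n / k : ℝ) - 1 ≤ #(cls σ (f w) \ O) := by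
          have b1 := (abs_le.1 (hσ (f w))).1
          have b2 : (#(cls σ (f w)) : ℝ) ≤ #(cls σ (f w) \ O) + 1 := by
            exact_mod_cast (card_le_card_sdiff_add_card (t := O)).trans (by omega)
          linarith
        calc _ ≤ Real.exp (-(99 / 100 * pt)) ^ #(cls σ (f w) \ O) := by
              gcongr
              · linarith
              · exact Real.one_sub_le_exp_neg _
          _ ≤ _ := by
              rw [← Real.exp_nat_mul]
              exact Real.exp_le_exp.2 (by nlinarith)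

theorem low_all [NeZero k] (hμ : IsProd μ (rr p σ)) (h0 : 0 ≤ p * (k / (k - 1)))
    (h1 : p * (k / (k - 1)) ≤ 1) (hσ : Bal σ) {b : ℝ}
    (hb : k * (100 ^ 90 * Real.exp (-(99 / 100 * (p * (k / (k - 1)))
        * (99 / 100 * (n / k) - 1)))) ≤ b)
    (l : Fin k) (T : Finset (Fin n)) (hT : T ⊆ cls σ l) (O : Finset (Fin n))
    (hO : ∀ v ∈ O, σ v ≠ l) (hO1 : #O ≤ 1) :
    μ.P (fun ω => ∀ w ∈ T, InW (gr ω) σ w ∧ ∀ v ∈ O, (gr ω).Adj w v)
      ≤ ((p * (k / (k - 1))) ^ #O * b) ^ #T := by
  classical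
  set F := Fintype.piFinset fun w : Fin n => if w ∈ T then univ.erase l else {l}
  have hF : (#F : ℝ) ≤ k ^ #T := by
    simp only [F, Fintype.card_piFinset, apply_ite card, card_singleton, prod_ite_mem, univ_inter,
      prod_const, card_erase_of_mem (mem_univ l), card_univ, Fintype.card_fin]
    exact_mod_cast Nat.pow_le_pow_left (Nat.sub_le _ _) _
  calc _ ≤ μ.P fun ω => ∃ f ∈ F, ∀ w ∈ T, cnt (cls σ (f w)) ((gr ω).Adj w) < 90 ∧
        ∀ v ∈ O, (gr ω).Adj w v := by
        refine P_mono _ fun ω h => ?_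
        choose! f hf using fun w hw => (h w hw).1
        refine ⟨fun w => if w ∈ T then f w else l, Fintype.mem_piFinset.2 fun w => ?_,
          fun w hw => ⟨by simpa [hw] using (hf w hw).2, (h w hw).2⟩⟩
        by_cases hw : w ∈ T
        · simpa [hw, mem_cls.1 (hT hw)] using (hf w hw).1
        · simp [hw]
    _ ≤ _ := by
        refine (P_exists_le _ _ _).trans ((sum_le_card_nsmul _ _ _ fun f hf =>
          low_one hμ h0 h1 hσ l T hT O hO hO1 f fun w hw => by
            simpa [hw] using Fintype.mem_piFinset.1 hf w).trans ?_)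
        rw [nsmul_eq_mul]
        refine (mul_le_mul_of_nonneg_right hF (by positivity)).trans ?_
        rw [← mul_pow, mul_left_comm]
        gcongr

theorem W_prob [NeZero k] (hσ : Bal σ) {b a : ℝ} (hb : 0 ≤ b) (ha : 0 < a)
    (hl : ∀ l, ∀ T ⊆ cls σ l, μ.P (fun ω => ∀ w ∈ T, InW (gr ω) σ w) ≤ b ^ #T)
    (h : 13 * (n / k) * b ≤ a) :
    μ.P (fun ω => ∃ j, a / 2 ≤ cnt (cls σ j) (InW (gr ω) σ)) ≤ k * (1 / 2) ^ ⌈a / 2⌉₊ := by
  classical
  have := P_exists_le' μ (fun j ω => a / 2 ≤ cnt (cls σ j) (InW (gr ω) σ))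
    (δ := (1 / 2) ^ ⌈a / 2⌉₊) fun j => ?_
  · simpa using this
  have t0 : 0 < ⌈a / 2⌉₊ := Nat.ceil_pos.2 (by positivity)
  have t1 : a / 2 ≤ ⌈a / 2⌉₊ := Nat.le_ceil _
  calc _ ≤ μ.P fun ω => ∃ T ∈ powersetCard ⌈a / 2⌉₊ (cls σ j), ∀ w ∈ T, InW (gr ω) σ w := by
        refine P_mono _ fun ω hω => ?_
        rw [cnt_eq] at hω
        obtain ⟨T, t1, t2⟩ := exists_subset_card_eq (Nat.ceil_le.2 hω)
        exact ⟨T, mem_powersetCard.2 ⟨t1.trans (filter_subset _ _), t2⟩,
          fun w hw => (mem_filter.1 (t1 hw)).2⟩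
    _ ≤ _ := by
        refine (P_exists_le _ _ _).trans ((sum_le_card_nsmul _ _ (b ^ ⌈a / 2⌉₊) fun T hT => by
          rw [← (mem_powersetCard.1 hT).2]; exact hl j T (mem_powersetCard.1 hT).1).trans ?_)
        rw [nsmul_eq_mul, card_powersetCard]
        refine (mul_le_mul_of_nonneg_right (choose_le _ _ t0) (by positivity)).trans ?_
        rw [← mul_pow]
        gcongr
        have b1 := (abs_le.1 (hσ j)).2
        have b2 : (0 : ℝ) ≤ n / k := by positivity
        rw [div_mul_eq_mul_div, div_le_iff₀ (by positivity)]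
        nlinarith

theorem U_prob [NeZero k] (hσ : Bal σ) {b a : ℝ} (ha : 0 < a)
    (hl : ∀ l v, σ v ≠ l → ∀ T ⊆ cls σ l,
      μ.P (fun ω => ∀ w ∈ T, InW (gr ω) σ w ∧ (gr ω).Adj w v) ≤ b ^ #T)
    (h : 64 * (n * (k * (n / k * b) ^ 10)) ≤ a) :
    μ.P (fun ω => a / 8 ≤ cnt univ (InU (gr ω) σ)) ≤ 1 / 8 := by
  classical
  refine (markov μ (fun _ => by positivity) (by positivity)).trans ?_
  rw [div_le_iff₀ (by positivity)]
  simp only [cnt_cast, E_sum]
  refine (sum_le_card_nsmul _ _ (k * (n / k * b) ^ 10 : ℝ) fun v _ => ?_).trans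
    (by simp only [card_univ, Fintype.card_fin, nsmul_eq_mul]; linarith)
  have := P_exists_le' μ (fun l ω => l ≠ σ v ∧ 10 ≤ cnt (cls σ l) fun w =>
    InW (gr ω) σ w ∧ (gr ω).Adj w v) (δ := (n / k * b) ^ 10) fun l => ?_
  · rw [Fintype.card_fin] at this; exact this
  by_cases hv : l = σ v
  · rw [P_false _ fun ω h => h.1 hv]; positivity
  calc _ ≤ μ.P fun ω => ∃ T ∈ powersetCard 10 (cls σ l),
        ∀ w ∈ T, InW (gr ω) σ w ∧ (gr ω).Adj w v := by
        refine P_mono _ fun ω hω => ?_
        rw [cnt_eq] at hω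
        obtain ⟨T, t1, t2⟩ := exists_subset_card_eq hω.2
        exact ⟨T, mem_powersetCard.2 ⟨t1.trans (filter_subset _ _), t2⟩,
          fun w hw => (mem_filter.1 (t1 hw)).2⟩
    _ ≤ _ := by
        refine (P_exists_le _ _ _).trans ((sum_le_card_nsmul _ _ (b ^ 10) fun T hT => by
          rw [← (mem_powersetCard.1 hT).2]
          exact hl l v (Ne.symm hv) T (mem_powersetCard.1 hT).1).trans ?_)
        rw [nsmul_eq_mul, card_powersetCard, mul_pow]
        refine mul_le_mul_of_nonneg_right ((choose_le _ _ (by norm_num)).trans ?_) (by positivity)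
        have b1 := (abs_le.1 (hσ l)).2
        have b2 : (0 : ℝ) ≤ n / k := by positivity
        exact pow_le_pow_left₀ (by positivity) (by push_cast; linarith) _

theorem sum_pow_card_le (s : Finset (Fin n)) {y : ℝ} (hy : 0 ≤ y) :
    ∑ A ∈ s.powerset, y ^ #A ≤ Real.exp (y * #s) := by
  have := prod_one_add (f := fun _ : Fin n => y) s
  simp only [prod_const] at this
  rw [← this, mul_comm, Real.exp_nat_mul]
  gcongr
  rw [add_comm]; exact Real.add_one_le_exp _

theorem Exp_prob [NeZero k] (hμ : IsProd μ (rr p σ)) (h0 : 0 ≤ p * (k / (k - 1)))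
    (h1 : p * (k / (k - 1)) ≤ 1) (hσ : Bal σ) {y : ℝ} (y0 : 0 < y) (y1 : y ≤ 1)
    (hy : Real.exp (-(p * (k / (k - 1)) * (39 / 100 * (n / k)))) ≤ y ^ 3 * Real.exp (-3)) :
    μ.P (fun ω => ¬ Exp (gr ω) σ (y * (n / k))) ≤ k * (k * Real.exp (-(y * (n / k) / 2))) := by
  classical
  set pt := p * (k / (k - 1))
  set m : ℝ := n / k
  have m0 : 0 ≤ m := by positivity
  have key : ∀ i j : Fin k, μ.P (fun ω => i ≠ j ∧ ∃ A ∈ (cls σ i).powerset, ∃ R ∈ (cls σ j).powerset,
      (y * m ≤ #A ∧ #R ≤ 2 * #A ∧ (#R : ℝ) ≤ 6 / 10 * m) ∧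
        ∀ u ∈ A, ∀ v ∈ cls σ j \ R, ¬ (gr ω).Adj u v) ≤ Real.exp (-(y * m / 2)) := fun i j => by
    by_cases hij : i = j
    · rw [P_false _ fun ω h => h.1 hij]; positivity
    refine (P_mono _ fun ω h => h.2).trans ((P_exists_le _ _ _).trans ?_)
    have b1 := abs_le.1 (hσ i)
    have b2 := abs_le.1 (hσ j)
    calc _ ≤ ∑ A ∈ (cls σ i).powerset, ∑ R ∈ (cls σ j).powerset,
          y ^ #A * (y ^ #R * Real.exp (-(3 * (y * m)))) := by
          refine sum_le_sum fun A hA => (P_exists_le _ _ _).trans (sum_le_sum fun R hR => ?_)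
          by_cases hc : y * m ≤ #A ∧ #R ≤ 2 * #A ∧ (#R : ℝ) ≤ 6 / 10 * m
          swap
          · rw [P_false _ fun ω h => hc h.1]; positivity
          have hA' := mem_powerset.1 hA
          have hne : ∀ u ∈ A, ∀ v ∈ cls σ j \ R, σ u ≠ σ v := fun u hu v hv => by
            rw [mem_cls.1 (hA' hu), mem_cls.1 (mem_sdiff.1 hv).1]; exact hij
          have e := hμ.cross A (cls σ j \ R) (disjoint_left.2 fun u hu hv => hne u hu u hv rfl)
            fun _ _ b => ind (b = false)
          have c1 : 39 / 100 * m ≤ #(cls σ j \ R) := by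
            rw [card_sdiff_of_subset (mem_powerset.1 hR), Nat.cast_sub (card_le_card (mem_powerset.1 hR))]
            linarith [hc.2.2]
          calc _ ≤ μ.E fun ω => ∏ u ∈ A, ∏ v ∈ cls σ j \ R, ind (ed ω u v = false) := by
                simp only [← ind_forall]
                exact P_mono _ fun ω h u hu v hv => by
                  by_contra h'
                  exact h.2 u hu v hv ⟨fun e => hne u hu v hv (e ▸ rfl), by simpa using h'⟩
            _ = ((1 - pt) ^ #(cls σ j \ R)) ^ #A := by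
                rw [e, ← prod_const, ← prod_const]
                refine prod_congr rfl fun u hu => prod_congr rfl fun v hv => ?_
                rw [rr_cross p σ (hne u hu v hv)]; simp [ind_eq_ite, pt]
            _ ≤ (y ^ 3 * Real.exp (-3)) ^ #A := by
                refine pow_le_pow_left₀ (pow_nonneg (by linarith) _) (le_trans ?_ hy) _
                calc _ ≤ Real.exp (-pt) ^ #(cls σ j \ R) :=
                      pow_le_pow_left₀ (by linarith) (Real.one_sub_le_exp_neg _) _
                  _ ≤ _ := by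
                      rw [← Real.exp_nat_mul]
                      exact Real.exp_le_exp.2 (by nlinarith)
            _ = y ^ #A * (y ^ (2 * #A) * Real.exp (#A * (-3))) := by
                rw [Real.exp_nat_mul]; ring
            _ ≤ _ := by
                gcongr _ * (?_ * ?_)
                · exact pow_le_pow_of_le_one y0.le y1 hc.2.1
                · exact Real.exp_le_exp.2 (by linarith [hc.1])
      _ ≤ Real.exp (y * #(cls σ i)) * (Real.exp (y * #(cls σ j)) * Real.exp (-(3 * (y * m)))) := by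
          simp only [← mul_sum, ← sum_mul]
          gcongr <;> exact sum_pow_card_le _ y0.le
      _ ≤ _ := by
          simp only [← Real.exp_add]
          exact Real.exp_le_exp.2 (by nlinarith)
  have := P_exists_le' μ _ fun i => P_exists_le' μ _ (key i)
  rw [Fintype.card_fin] at this
  refine le_trans (P_mono _ fun ω hω => ?_) this
  simp only [Exp, not_forall, not_exists, not_and] at hω
  obtain ⟨i, j, hij, A, hA, R, hR, c1, c2, c3, c4⟩ := hω
  exact ⟨i, j, hij, A, mem_powerset.2 hA, R, mem_powerset.2 hR, ⟨c1, c2, c3⟩, c4⟩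

end

end Pool.Agent.Lib.MP_4b2155_pr
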