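import Pool.Agent.Lib.MP_4b2155_pr.Model

set_option autoImplicit false

namespace Pool.Agent.Lib.MP_4b2155_pr

open Finset Pool.Agent.Lib.MP_ad359d_co FP

noncomputable section

variable {n : ℕ}

def Sp (G : SimpleGraph (Fin n)) (x : ℝ) : Prop :=
  ∀ X : Finset (Fin n), X.Nonempty → (#X : ℝ) ≤ x → ∑ v ∈ X, cnt X (G.Adj v) < 40 * #X

theorem Sp.low {G : SimpleGraph (Fin n)} {x : ℝ} (h : Sp G x) {X : Finset (Fin n)}
    (h1 : X.Nonempty) (h2 : (#X : ℝ) ≤ x) : ∃ v ∈ X, cnt X (G.Adj v) < 40 := by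
  by_contra hc
  push Not at hc
  have := card_nsmul_le_sum X _ _ hc
  have := h X h1 h2
  simp only [smul_eq_mul] at *
  omega

theorem Sp.col {G : SimpleGraph (Fin n)} {x : ℝ} (h : Sp G x) (S : Finset (Fin n))
    (h2 : (#S : ℝ) ≤ x) : ∃ c : Fin n → Fin 40, ∀ u ∈ S, ∀ v ∈ S, G.Adj u v → c u ≠ c v := by
  classical
  induction S using Finset.strongInduction with
  | H S ih =>
    rcases S.eq_empty_or_nonempty with rfl | hS
    · exact ⟨fun _ => 0, by simp⟩
    obtain ⟨w, hw, hd⟩ := h.low hS h2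
    obtain ⟨c, hc⟩ := ih (S.erase w) (erase_ssubset hw)
      (le_trans (by exact_mod_cast card_erase_le) h2)
    rw [cnt_eq] at hd
    obtain ⟨a, -, ha⟩ := exists_mem_notMem_of_card_lt_card (s := (S.filter (G.Adj w)).image c)
      (t := univ) (lt_of_le_of_lt card_image_le (by simpa using hd))
    refine ⟨Function.update c w a, fun u hu v hv huv => ?_⟩
    by_cases h1 : u = w
    · subst h1
      rw [Function.update_self, Function.update_of_ne huv.ne']
      exact fun e => ha (mem_image.2 ⟨v, mem_filter.2 ⟨hv, huv⟩, e.symm⟩)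
    · by_cases h2 : v = w
      · subst h2
        rw [Function.update_self, Function.update_of_ne h1]
        exact fun e => ha (mem_image.2 ⟨u, mem_filter.2 ⟨hu, huv.symm⟩, e⟩)
      · rw [Function.update_of_ne h1, Function.update_of_ne h2]
        exact hc u (mem_erase.2 ⟨h1, hu⟩) v (mem_erase.2 ⟨h2, hv⟩) huv

theorem deg_insert (G : SimpleGraph (Fin n)) (Z : Finset (Fin n)) (w : Fin n) (hw : w ∉ Z) :
    ∑ v ∈ Z, cnt Z (G.Adj v) + 2 * cnt Z (G.Adj w)
      ≤ ∑ v ∈ insert w Z, cnt (insert w Z) (G.Adj v) := by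
  have : ((∑ v ∈ Z, cnt Z (G.Adj v) + 2 * cnt Z (G.Adj w) : ℕ) : ℝ)
      ≤ (∑ v ∈ insert w Z, cnt (insert w Z) (G.Adj v) : ℕ) := by
    push_cast
    simp only [cnt_cast, sum_insert hw, sum_add_distrib, G.adj_comm w]
    have := ind_nonneg (G.Adj w w)
    linarith
  exact_mod_cast this

theorem Sp.close {G : SimpleGraph (Fin n)} {x : ℝ} (h : Sp G x) (Z₀ : Finset (Fin n))
    (h2 : 2 * (#Z₀ : ℝ) + 1 ≤ x) :
    ∃ Z, Z₀ ⊆ Z ∧ #Z ≤ 2 * #Z₀ ∧ ∀ w, w ∉ Z → cnt Z (G.Adj w) < 40 := by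
  classical
  obtain ⟨Z, hZ, hmax⟩ := exists_max_image (univ.filter fun Z : Finset (Fin n) => Z₀ ⊆ Z ∧
    #Z ≤ 2 * #Z₀ ∧ 80 * #Z ≤ ∑ v ∈ Z, cnt Z (G.Adj v) + 80 * #Z₀) card ⟨Z₀, by simp; omega⟩
  obtain ⟨-, h3, h4, h5⟩ := mem_filter.1 hZ
  refine ⟨Z, h3, h4, fun w hw => ?_⟩
  by_contra hc
  have a1 := deg_insert G Z w hw
  have a2 := card_insert_of_notMem hw
  by_cases h6 : #Z + 1 ≤ 2 * #Z₀
  · have := hmax (insert w Z) (mem_filter.2 ⟨mem_univ _, h3.trans (subset_insert _ _), by omega,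
      by omega⟩)
    omega
  · have := h (insert w Z) (insert_nonempty _ _) (le_trans (by
      rw [a2]; exact_mod_cast Nat.succ_le_succ h4) h2)
    omega

theorem choose_le (N r : ℕ) (hr : 0 < r) : (N.choose r : ℝ) ≤ (3 * N / r) ^ r := by
  have h1 : (r : ℝ) ^ r / r.factorial ≤ 3 ^ r := by
    refine (Real.pow_div_factorial_le_exp _ (by positivity) r).trans ?_
    rw [← mul_one (r : ℝ), Real.exp_nat_mul]
    gcongr
    linarith [Real.exp_one_lt_d9]
  calc _ ≤ (N : ℝ) ^ r / r.factorial := Nat.choose_le_pow_div _ _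
    _ = (N / r) ^ r * ((r : ℝ) ^ r / r.factorial) := by rw [div_pow]; field_simp
    _ ≤ (N / r) ^ r * 3 ^ r := by gcongr
    _ = _ := by rw [← mul_pow]; congr 1; ring

theorem ind_forall {ι : Type*} (I : Finset ι) (s : ι → Prop) :
    ind (∀ i ∈ I, s i) = ∏ i ∈ I, ind (s i) := by
  by_cases h : ∀ i ∈ I, s i
  · rw [ind_true h, prod_eq_one fun i hi => ind_true (h i hi)]
  · rw [ind_false h]
    push Not at h
    obtain ⟨i, hi, h⟩ := h
    exact (prod_eq_zero hi (ind_false h)).symm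

theorem sp_term {p d γ : ℝ} (h0 : 0 ≤ p) (hn : 0 < n) (hp : p ≤ d / n) (hγ : γ ≤ 1 / 2)
    (hd : d ^ 20 * γ ^ 18 ≤ 1 / 2) (s : ℕ) (hs : 0 < s) (hs2 : (s : ℝ) ≤ γ * n) :
    (n.choose s : ℝ) * ((s * s).choose (20 * s) * p ^ (20 * s)) ≤ (1 / 2) ^ s / n := by
  have hn' : (0 : ℝ) < n := by exact_mod_cast hn
  have hs' : (0 : ℝ) < s := by exact_mod_cast hs
  have hd0 : 0 ≤ d := by
    have := (div_nonneg_iff.1 (h0.trans hp)).resolve_right (fun h => by linarith [h.2])
    exact this.1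
  set z : ℝ := s / n with hz
  have z0 : 0 < z := by positivity
  have z1 : z ≤ γ := by rw [hz, div_le_iff₀ hn']; exact hs2
  have a1 : z ^ s ≤ 1 / n := by
    obtain ⟨s, rfl⟩ := Nat.exists_eq_succ_of_ne_zero hs.ne'
    have : ((s.succ : ℕ) : ℝ) ≤ 2 ^ s := by exact_mod_cast Nat.lt_two_pow_self
    calc _ = z * z ^ s := by rw [pow_succ']
      _ ≤ 2 ^ s / n * (1 / 2) ^ s :=
          mul_le_mul (by rw [hz]; gcongr) (by gcongr; linarith) (by positivity) (by positivity)
      _ = _ := by rw [one_div, inv_pow]; field_simp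
  calc _ ≤ (3 * n / s) ^ s * ((3 * (s * s : ℕ) / (20 * s : ℕ)) ^ (20 * s) * (d / n) ^ (20 * s)) := by
        gcongr
        · exact choose_le _ _ hs
        · exact choose_le _ _ (by omega)
    _ = (3 * (3 / 20) ^ 20 * (d ^ 20 * z ^ 18) * z) ^ s := by
        rw [← mul_pow, pow_mul, ← mul_pow]
        congr 1
        push_cast; rw [hz]; field_simp
    _ ≤ (1 * (1 / 2) * z) ^ s := by
        gcongr
        · norm_num
        · exact le_trans (by gcongr) hd
    _ ≤ _ := by rw [one_mul, mul_pow, div_eq_mul_one_div _ (n : ℝ)]; gcongr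

theorem sp_prob {μ : FP (Om n)} {r : Fin n × Fin n → ℝ} {p d γ : ℝ} (hμ : IsProd μ r)
    (hr : ∀ a, 0 ≤ r a ∧ r a ≤ p) (h0 : 0 ≤ p) (hn : 0 < n)
    (hp : p ≤ d / n) (hγ : γ ≤ 1 / 2) (hd : d ^ 20 * γ ^ 18 ≤ 1 / 2) :
    μ.P (fun ω => ¬ Sp (gr ω) (γ * n)) ≤ 1 / n := by
  classical
  have hn' : (0 : ℝ) < n := by exact_mod_cast hn
  set I := (range (n + 1)).filter fun s : ℕ => 0 < s ∧ (s : ℝ) ≤ γ * n
  calc _ ≤ μ.P fun ω => ∃ s ∈ I, ∃ X ∈ powersetCard s (univ : Finset (Fin n)),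
        ∃ F ∈ powersetCard (20 * s) (X ×ˢ X), ∀ a ∈ F, ω a.1 a.2 = true := by
        refine P_mono _ fun ω hω => ?_
        simp only [Sp, not_forall, not_lt] at hω
        obtain ⟨X, x1, x2, x3⟩ := hω
        have b1 : 20 * #X ≤ #((X ×ˢ X).filter fun a => ω a.1 a.2 = true) := by
          have c1 : ((∑ v ∈ X, cnt X ((gr ω).Adj v) : ℕ) : ℝ)
              ≤ 2 * cnt (X ×ˢ X) fun a => ω a.1 a.2 = true := by
            push_cast
            simp only [cnt_cast, sum_product]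
            rw [two_mul]
            nth_rw 2 [sum_comm]
            simp only [← sum_add_distrib]
            refine sum_le_sum fun u _ => sum_le_sum fun v _ => le_trans (ind_mono fun h => ?_)
              (ind_or_le _ _)
            have := h.2
            rcases le_total u v with h' | h' <;> simp [ed, h'] at this <;> simp [this]
          rw [cnt_eq] at c1
          have c2 : ∑ v ∈ X, cnt X ((gr ω).Adj v) ≤ 2 * #((X ×ˢ X).filter fun a => ω a.1 a.2 = true) := by
            exact_mod_cast c1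
          omega
        obtain ⟨F, f1, f2⟩ := exists_subset_card_eq b1
        refine ⟨#X, mem_filter.2 ⟨mem_range.2 (Nat.lt_succ_of_le ((card_le_univ _).trans (by simp))),
          x1.card_pos, x2⟩, X, by simp, F, mem_powersetCard.2 ⟨f1.trans (filter_subset _ _), f2⟩,
          fun a ha => (mem_filter.1 (f1 ha)).2⟩
    _ ≤ ∑ s ∈ I, (1 / 2 : ℝ) ^ s / n := by
        refine (P_exists_le _ _ _).trans (sum_le_sum fun s hs => ?_)
        refine (P_exists_le _ _ _).trans (le_trans ?_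
          (sp_term h0 hn hp hγ hd s (mem_filter.1 hs).2.1 (mem_filter.1 hs).2.2))
        refine (sum_le_card_nsmul _ _ ((s * s).choose (20 * s) * p ^ (20 * s) : ℝ)
          fun X hX => ?_).trans (by simp)
        refine (P_exists_le _ _ _).trans ((sum_le_card_nsmul _ _ (p ^ (20 * s)) fun F hF => ?_).trans
          (by simp [(mem_powersetCard.1 hX).2]))
        have := hμ.indep F id (Set.injOn_id _) fun _ b => ind (b = true)
        simp only [P, ind_forall]
        refine this.trans_le ?_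
        simp only [ind_eq_ite, if_true, Bool.false_eq_true, if_false, mul_one, mul_zero, add_zero]
        rw [← (mem_powersetCard.1 hF).2, ← prod_const]
        exact prod_le_prod (fun a _ => (hr a).1) fun a _ => (hr a).2
    _ ≤ _ := by
        rw [← sum_div]
        gcongr
        have h1 : ∑ s ∈ range (n + 1), (1 / 2 : ℝ) ^ s ≤ 2 := sum_geometric_two_le _
        have h2 : ∑ s ∈ insert 0 I, (1 / 2 : ℝ) ^ s ≤ ∑ s ∈ range (n + 1), (1 / 2 : ℝ) ^ s :=
          sum_le_sum_of_subset_of_nonneg (insert_subset (by simp) (filter_subset _ _))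
            fun _ _ _ => by positivity
        rw [sum_insert (by simp [I])] at h2
        linarith

end

end Pool.Agent.Lib.MP_4b2155_pr
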