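import Pool.Agent.Lib.MP_4b2155_pr.Core

set_option autoImplicit false

namespace Pool.Agent.Lib.MP_4b2155_pr

open Finset Pool.Agent.Lib.MP_ad359d_co FP

noncomputable section

variable {n : ℕ}

abbrev Ed (n : ℕ) := (⊤ : SimpleGraph (Fin n)).edgeSet

def gOf (A : Finset (Ed n)) : SimpleGraph (Fin n) :=
  SimpleGraph.fromEdgeSet {e | ∃ h : e ∈ (⊤ : SimpleGraph (Fin n)).edgeSet, ⟨e, h⟩ ∈ A}

def eds (ω : Om n) : Finset (Ed n) := univ.filter fun e => ω e.1.inf e.1.sup = true

theorem gOf_eds (ω : Om n) : gOf (eds ω) = gr ω := by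
  ext u v
  simp only [gOf, eds, gr, ed, SimpleGraph.fromEdgeSet_adj, mem_filter, mem_univ, true_and,
    Set.mem_ofPred_eq, SimpleGraph.mem_edgeSet, SimpleGraph.top_adj, Sym2.inf_mk, Sym2.sup_mk]
  tauto

theorem proc_eq (π : Ord n) (t : ℕ) : proc π t = gOf (univ.filter fun e => (π e : ℕ) < t) := by
  simp [proc, gOf]

theorem card_Ed (n : ℕ) : Fintype.card (Ed n) = n.choose 2 := by
  rw [SimpleGraph.card_edgeSet, SimpleGraph.card_edgeFinset_top_eq_card_choose_two, Fintype.card_fin]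

instance : Nonempty (Ord n) := ⟨Fintype.equivFinOfCardEq (card_Ed n)⟩

theorem prob_eq (E : Ord n → Prop) : prob n E = (unif univ univ_nonempty).P E := by
  classical
  rw [P, unif_E, ← cnt_cast, cnt_eq, prob, Nat.card_eq_fintype_card, card_univ,
    Set.ncard_eq_toFinset_card', Set.toFinset_ofPred]

theorem eds_prob {μ : FP (Om n)} {p : ℝ} (hμ : IsProd μ fun _ => p) (A : Finset (Ed n)) :
    μ.P (fun ω => eds ω = A) = p ^ #A * (1 - p) ^ (n.choose 2 - #A) := by
  have := hμ.indep (univ : Finset (Ed n)) (fun e => (e.1.inf, e.1.sup)) (fun e _ e' _ h =>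
    Subtype.ext (Sym2.inf_eq_inf_and_sup_eq_sup.1 (Prod.mk.inj h))) fun e b => ind (b = true ↔ e ∈ A)
  simp only [← ind_forall] at this
  refine Eq.trans (P_congr _ fun ω => by simp [eds, Finset.ext_iff]) (this.trans ?_)
  rw [← card_Ed, ← card_compl, ← prod_const, ← prod_const, ← prod_mul_prod_compl A]
  congr 1 <;> refine prod_congr rfl fun e he => ?_
  · simp [ind_eq_ite, he]
  · simp [ind_eq_ite, mem_compl.1 he]

theorem P_eds {μ : FP (Om n)} {p : ℝ} (hμ : IsProd μ fun _ => p) (Q : Finset (Ed n) → Prop)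
    (π : Ord n) : μ.P (fun ω => Q (eds ω)) = ∑ B : Finset (Fin (n.choose 2)),
      p ^ #B * (1 - p) ^ (n.choose 2 - #B) * ind (Q (B.map π.symm.toEmbedding)) := by
  rw [← map_P, P, E_eq_sum]
  simp only [map_P, eds_prob hμ]
  exact (Fintype.sum_equiv π.symm.finsetCongr _ _ fun B => by simp).symm

theorem transfer {μ : FP (Om n)} {p : ℝ} (hμ : IsProd μ fun _ => p) (h0 : 0 ≤ p) (h1 : p ≤ 1)
    (Q : SimpleGraph (Fin n) → Prop) :
    μ.P (fun ω => Q (gr ω)) ≤ prob n fun π => ∃ t, Q (proc π t) := by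
  classical
  have e1 := P_eds hμ (fun _ => True) (Classical.arbitrary _)
  simp only [P_true, ind_true, mul_one, implies_true] at e1
  have e2 := (unif (univ : Finset (Ord n)) univ_nonempty).E_const (μ.P fun ω => Q (gOf (eds ω)))
  rw [show (fun _ : Ord n => μ.P fun ω => Q (gOf (eds ω))) = _ from
    funext fun π => P_eds hμ (fun A => Q (gOf A)) π] at e2
  simp only [gOf_eds, E_sum, E_mul_left] at e2
  rw [← e2, ← one_mul (prob _ _), congrArg (· * prob n fun π => ∃ t, Q (proc π t)) e1, sum_mul]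
  refine sum_le_sum fun B _ => mul_le_mul_of_nonneg_left ?_ 
    (mul_nonneg (pow_nonneg h0 _) (pow_nonneg (sub_nonneg.2 h1) _))
  have hB : #B ≤ n.choose 2 := (card_le_univ B).trans (by simp)
  let e := Fintype.equivOfCardEq (α := {x // x ∈ B})
    (β := {x : Fin (n.choose 2) // (x : ℕ) < #B}) (by
      rw [Fintype.card_coe, Fintype.card_subtype, Fin.card_filter_val_lt]; omega)
  let ρ := Equiv.extendSubtype e
  have hρ : ∀ x, x ∈ B ↔ (ρ x : ℕ) < #B := fun x =>
    ⟨Equiv.extendSubtype_mem e x, fun h => by_contra fun h' => Equiv.extendSubtype_not_mem e x h' h⟩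
  rw [prob_eq, P, unif_E, unif_E]
  refine div_le_div_of_nonneg_right ?_ (Nat.cast_nonneg _)
  rw [← Equiv.sum_comp (Equiv.equivCongr (Equiv.refl _) ρ) fun π : Ord n => ind (∃ t, Q (proc π t))]
  refine sum_le_sum fun π _ => ind_mono fun h => ⟨#B, ?_⟩
  rw [proc_eq]
  convert h using 2
  ext z
  rw [mem_filter, mem_map_equiv, hρ]
  exact ⟨fun h => h.2, fun h => ⟨mem_univ _, h⟩⟩

end

end Pool.Agent.Lib.MP_4b2155_pr
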